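import Pool.Agent.H.MP_4093f8_co.Poly.Induct

/-! # Averaging over small subcubes -/

namespace Pool.Agent.H.MP_4093f8_co.Poly

open Finset

section

variable {ι : Type} [DecidableEq ι]

/-- the set `x` with the membership of `j` changed -/
def tog (j : ι) (x : Finset ι) : Finset ι := if j ∈ x then x.erase j else insert j x

theorem card_contain (S X : Finset ι) (hX : X ⊆ S) (m : ℕ) (hm : X.card ≤ m) :
    ((S.powersetCard m).filter (fun M => X ⊆ M)).card = (S.card - X.card).choose (m - X.card) := by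
  have h1 : ((S.powersetCard m).filter (fun M => X ⊆ M)).card =
      ((S \ X).powersetCard (m - X.card)).card := by
    refine card_nbij' (fun M => M \ X) (fun T => T ∪ X) ?_ ?_ ?_ ?_
    · intro M hM
      rw [mem_coe, mem_filter, mem_powersetCard] at hM
      rw [mem_coe, mem_powersetCard]
      obtain ⟨⟨h1, h2⟩, h3⟩ := hM
      exact ⟨sdiff_subset_sdiff h1 (Subset.refl X), by rw [card_sdiff_of_subset h3, h2]⟩
    · intro T hT
      rw [mem_coe, mem_powersetCard] at hT
      rw [mem_coe, mem_filter, mem_powersetCard]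
      obtain ⟨h1, h2⟩ := hT
      have h3 : Disjoint T X := disjoint_of_subset_left h1 sdiff_disjoint
      refine ⟨⟨union_subset (h1.trans sdiff_subset) hX, ?_⟩, subset_union_right⟩
      rw [card_union_of_disjoint h3, h2]
      omega
    · intro M hM
      rw [mem_coe, mem_filter, mem_powersetCard] at hM
      simp only
      rw [sdiff_union_of_subset hM.2]
    · intro T hT
      rw [mem_coe, mem_powersetCard] at hT
      have h3 : Disjoint T X := disjoint_of_subset_left hT.1 sdiff_disjoint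
      simp only
      rw [union_sdiff_right, sdiff_eq_self_of_disjoint h3]
  rw [h1, card_powersetCard, card_sdiff_of_subset hX]

theorem sum_single (S : Finset ι) (m : ℕ) (hm : 1 ≤ m) (f : ι → ℝ) :
    ∑ M ∈ S.powersetCard m, ∑ i ∈ M, f i = (S.card - 1).choose (m - 1) * ∑ i ∈ S, f i := by
  rw [sum_comm' (t' := S) (s' := fun i => (S.powersetCard m).filter (fun M => {i} ⊆ M))]
  · rw [mul_sum]
    refine sum_congr rfl fun i hi' => ?_
    rw [sum_const, nsmul_eq_mul, card_contain S {i} (singleton_subset_iff.mpr hi') m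
      (by rw [card_singleton]; exact hm), card_singleton]
  · intro M i
    rw [mem_filter, singleton_subset_iff, mem_powersetCard]
    constructor
    · rintro ⟨h1, h2⟩; exact ⟨⟨h1, h2⟩, h1.1 h2⟩
    · rintro ⟨⟨h1, h2⟩, _⟩; exact ⟨h1, h2⟩

theorem sum_double (S : Finset ι) (m : ℕ) (hm : 2 ≤ m) (f : ι → ι → ℝ) :
    ∑ M ∈ S.powersetCard m, ∑ i ∈ M, ∑ j ∈ M.erase i, f i j =
      (S.card - 2).choose (m - 2) * ∑ i ∈ S, ∑ j ∈ S.erase i, f i j := by
  rw [sum_comm' (t' := S) (s' := fun i => (S.powersetCard m).filter (fun M => {i} ⊆ M))]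
  · rw [mul_sum]
    refine sum_congr rfl fun i hi' => ?_
    rw [sum_comm' (t' := S.erase i) (s' := fun j => (S.powersetCard m).filter (fun M => {i, j} ⊆ M))]
    · rw [mul_sum]
      refine sum_congr rfl fun j hj => ?_
      have h1 : ({i, j} : Finset ι).card = 2 := card_pair (ne_of_mem_erase hj).symm
      rw [sum_const, nsmul_eq_mul, card_contain S {i, j} ?_ m (by rw [h1]; exact hm), h1]
      intro a ha
      rcases mem_insert.mp ha with rfl | ha
      · exact hi'
      · rw [mem_singleton.mp ha]; exact mem_of_mem_erase hj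
    · intro M j
      rw [mem_filter, mem_filter, singleton_subset_iff, mem_powersetCard, mem_erase, mem_erase,
        insert_subset_iff, singleton_subset_iff]
      constructor
      · rintro ⟨⟨h1, h2⟩, h3, h4⟩; exact ⟨⟨h1, h2, h4⟩, h3, h1.1 h4⟩
      · rintro ⟨⟨h1, h2, h3⟩, h4, _⟩; exact ⟨⟨h1, h2⟩, h4, h3⟩
  · intro M i
    rw [mem_filter, singleton_subset_iff, mem_powersetCard]
    constructor
    · rintro ⟨h1, h2⟩; exact ⟨⟨h1, h2⟩, h1.1 h2⟩
    · rintro ⟨⟨h1, h2⟩, _⟩; exact ⟨h1, h2⟩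

theorem mix_insert {M y z : Finset ι} {j : ι} (hj : j ∈ M) (hy : j ∉ y) :
    mix M (insert j y) z = tog j (mix M y z) := by
  have h1 : j ∉ mix M y z := by rw [mem_mix_of_mem hj]; exact hy
  rw [tog, if_neg h1]
  ext a
  rw [mem_insert]
  by_cases h : a ∈ M
  · rw [mem_mix_of_mem h, mem_mix_of_mem h, mem_insert]
  · rw [mem_mix_of_notMem h, mem_mix_of_notMem h]
    constructor
    · intro h2; exact Or.inr h2
    · rintro (h2 | h2)
      · exact absurd (h2 ▸ hj) h
      · exact h2

theorem mix_erase {M y z : Finset ι} {i : ι} (hi' : i ∈ M) :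
    mix M (y ∩ M.erase i) z = (mix M y z).erase i := by
  ext a
  rw [mem_erase]
  by_cases h : a ∈ M
  · rw [mem_mix_of_mem h, mem_mix_of_mem h, mem_inter, mem_erase]
    tauto
  · rw [mem_mix_of_notMem h, mem_mix_of_notMem h]
    constructor
    · intro h1; exact ⟨fun h2 => h (h2 ▸ hi'), h1⟩
    · intro h1; exact h1.2

end

section

variable {ι : Type} [Fintype ι] [DecidableEq ι]

theorem mix_sum_large (M z : Finset ι) (p : Finset ι → Prop)
    (h : ∑ y : Finset ι, ind (p (mix M y z)) ≠ 0) :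
    2 ^ (Fintype.card ι - M.card) ≤ ∑ y : Finset ι, ind (p (mix M y z)) := by
  have h1 : ∑ y : Finset ι, ind (p (mix M y z)) =
      2 ^ (Fintype.card ι - M.card) * ∑ w ∈ M.powerset, ind (p (w ∪ (z \ M))) :=
    sum_inter M (fun w => ind (p (w ∪ (z \ M))))
  obtain ⟨w, hw, hpw⟩ : ∃ w ∈ M.powerset, p (w ∪ (z \ M)) := by
    by_contra hcon
    push Not at hcon
    apply h
    rw [h1, sum_eq_zero fun w hw => ind_false (hcon w hw), mul_zero]
  have h2 : (1 : ℝ) ≤ ∑ w ∈ M.powerset, ind (p (w ∪ (z \ M))) := by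
    rw [← ind_true hpw]
    exact single_le_sum (f := fun w => ind (p (w ∪ (z \ M)))) (fun w _ => ind_nonneg _) hw
  rw [h1]
  have h3 : (0 : ℝ) < 2 ^ (Fintype.card ι - M.card) := by positivity
  nlinarith

end

section

variable {ι : Type} [Fintype ι] [LinearOrder ι]

omit [Fintype ι] in
theorem level_of_clean (A B : Type) [AddCommGroup A] (d : ℕ) (H : ι → Finset ι → Prop)
    (hH : ∀ i y, H i (y.erase i) ↔ H i y) (c : ι → Finset ι → A) (g : ι → Finset ι → B)
    (Φ : ι → A → B → Prop) (M z : Finset ι)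
    (h1 : ∀ i ∈ M, ∀ y, H i (mix M y z) ↔
      Φ i (polyval (d + 1) (c i) (mix M y z)) (g i (mix M y z)))
    (h2 : ∀ i ∈ M, ∀ j ∈ M.erase i, ∀ y, g i (tog j (mix M y z)) = g i (mix M y z)) :
    Level 1 (d + 1) A (fun i y => H i (mix M y z)) M := by
  have hg : ∀ i ∈ M, ∀ w ⊆ M.erase i, g i (mix M w z) = g i (mix M ∅ z) := by
    intro i hi' w
    induction w using Finset.induction_on with
    | empty => intro _; rfl
    | insert j w hj ih =>
      intro hw
      have h3 : j ∈ M.erase i := hw (mem_insert_self j w)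
      rw [mix_insert (mem_of_mem_erase h3) hj, h2 i hi' j h3]
      exact ih fun a ha => hw (mem_insert_of_mem ha)
  refine ⟨fun i T₁ => ∑ T₂ ∈ (z \ M).powerset,
      if (T₁ ∪ T₂).card < d + 1 then c i (T₁ ∪ T₂) else 0,
    fun i _ _ v => Φ i v (g i (mix M ∅ z)), ?_⟩
  intro i hi' y
  beta_reduce
  rw [← hH i (mix M y z), ← mix_erase hi', h1 i hi', hg i hi' _ inter_subset_right]
  have h3 : mix M (y ∩ M.erase i) z = (y ∩ M.erase i) ∪ (z \ M) := by
    unfold mix
    congr 1
    rw [inter_assoc, inter_eq_left.mpr (erase_subset i M)]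
  have h4 : Disjoint (y ∩ M.erase i) (z \ M) := by
    rw [disjoint_left]
    intro a h5 h6
    exact (mem_sdiff.mp h6).2 (mem_of_mem_erase (mem_inter.mp h5).2)
  rw [h3, polyval_union _ _ _ _ h4]

/-- The main theorem for systems of directed edge indicators. -/
theorem main_system (A : Type) [AddCommGroup A] [Finite A] (d : ℕ) (ε : ℝ) (hε : 0 < ε) :
    ∃ δ : ℝ, 0 < δ ∧ ∃ n₀ : ℕ, ∀ (ι : Type) [Fintype ι] [LinearOrder ι], n₀ ≤ Fintype.card ι →
      ∀ (B : Type) (H : ι → Finset ι → Prop), (∀ i y, H i (y.erase i) ↔ H i y) →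
      C4Free H univ → ∀ (c : ι → Finset ι → A) (g : ι → Finset ι → B) (Φ : ι → A → B → Prop),
      ∑ i : ι, ∑ j : ι, ∑ x : Finset ι, ind (g i (tog j x) ≠ g i x) ≤
        δ * (Fintype.card ι) ^ 2 * 2 ^ Fintype.card ι →
      ∑ i : ι, ∑ x : Finset ι, ind (¬ (H i x ↔ Φ i (polyval (d + 1) (c i) x) (g i x))) ≤
        δ * (Fintype.card ι) * 2 ^ Fintype.card ι →
      tot H univ ≤ (1 / 2 + ε) * Fintype.card ι * 2 ^ Fintype.card ι := by
  obtain ⟨n₁, hn₁⟩ := bound (d + 1) A 1 one_ne_zero (ε / 2) (by positivity)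
  set m := n₁ + 2 with hm
  have hm0 : (0 : ℝ) < m := by rw [hm]; positivity
  refine ⟨ε / (2 * (m * 2 ^ m * (2 * m))), by positivity, m, ?_⟩
  set δ := ε / (2 * (m * 2 ^ m * (2 * m))) with hδ
  have hδ0 : 0 < δ := by rw [hδ]; positivity
  intro ι _ _ hn B H hH hfree c g Φ hS hMis
  set n := Fintype.card ι with hn'
  set N : ℝ := 2 ^ n with hN
  have hN0 : 0 < N := by rw [hN]; positivity
  set mis : ι → Finset ι → Prop :=
    fun i x => ¬ (H i x ↔ Φ i (polyval (d + 1) (c i) x) (g i x)) with hmis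
  set sen : ι → ι → Finset ι → Prop := fun i j x => g i (tog j x) ≠ g i x with hsen
  -- one small cube
  have hcube : ∀ M ∈ (univ : Finset ι).powersetCard m, ∀ z : Finset ι,
      tot (fun i y => H i (mix M y z)) M ≤ (1 / 2 + ε / 2) * m * N +
        m * 2 ^ m * (∑ i ∈ M, ∑ y : Finset ι, ind (mis i (mix M y z)) +
          ∑ i ∈ M, ∑ j ∈ M.erase i, ∑ y : Finset ι, ind (sen i j (mix M y z))) := by
    intro M hM z
    have hMc : M.card = m := (mem_powersetCard.mp hM).2
    have p1 : 0 ≤ ∑ i ∈ M, ∑ y : Finset ι, ind (mis i (mix M y z)) :=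
      sum_nonneg fun i _ => sum_nonneg fun y _ => ind_nonneg _
    have p2 : 0 ≤ ∑ i ∈ M, ∑ j ∈ M.erase i, ∑ y : Finset ι, ind (sen i j (mix M y z)) :=
      sum_nonneg fun i _ => sum_nonneg fun j _ => sum_nonneg fun y _ => ind_nonneg _
    by_cases hclean : (∀ i ∈ M, ∀ y, ¬ mis i (mix M y z)) ∧
        ∀ i ∈ M, ∀ j ∈ M.erase i, ∀ y, ¬ sen i j (mix M y z)
    · have h1 := hn₁ ι M (fun i y => H i (mix M y z)) (by omega)
        (level_of_clean A B d H hH c g Φ M z
          (fun i hi' y => not_not.mp (hclean.1 i hi' y))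
          (fun i hi' j hj y => not_not.mp (hclean.2 i hi' j hj y)))
        (hfree.restrict (subset_univ M) z)
      rw [hMc] at h1
      have h2 : (0 : ℝ) ≤ m * 2 ^ m * (∑ i ∈ M, ∑ y : Finset ι, ind (mis i (mix M y z)) +
          ∑ i ∈ M, ∑ j ∈ M.erase i, ∑ y : Finset ι, ind (sen i j (mix M y z))) := by positivity
      linarith
    · have hlarge : (2 : ℝ) ^ (n - m) ≤ ∑ i ∈ M, ∑ y : Finset ι, ind (mis i (mix M y z)) +
          ∑ i ∈ M, ∑ j ∈ M.erase i, ∑ y : Finset ι, ind (sen i j (mix M y z)) := by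
        have key : ∀ (p : Finset ι → Prop), (∃ y, p (mix M y z)) →
            (2 : ℝ) ^ (n - m) ≤ ∑ y : Finset ι, ind (p (mix M y z)) := by
          rintro p ⟨y, hy⟩
          have := mix_sum_large M z p (by
            intro h0
            have h1 := (sum_eq_zero_iff_of_nonneg (fun y _ => ind_nonneg _)).mp h0 y (mem_univ y)
            rw [ind_true hy] at h1
            exact one_ne_zero h1)
          rwa [hMc] at this
        rw [not_and_or] at hclean
        rcases hclean with h1 | h1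
        · push Not at h1
          obtain ⟨i, hi', y, hy⟩ := h1
          have h2 := key (mis i) ⟨y, hy⟩
          have h3 : ∑ y : Finset ι, ind (mis i (mix M y z)) ≤
              ∑ i ∈ M, ∑ y : Finset ι, ind (mis i (mix M y z)) :=
            single_le_sum (f := fun i => ∑ y : Finset ι, ind (mis i (mix M y z)))
              (fun i _ => sum_nonneg fun y _ => ind_nonneg _) hi'
          linarith
        · push Not at h1
          obtain ⟨i, hi', j, hj, y, hy⟩ := h1
          have h2 := key (sen i j) ⟨y, hy⟩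
          have h3 : ∑ y : Finset ι, ind (sen i j (mix M y z)) ≤
              ∑ j ∈ M.erase i, ∑ y : Finset ι, ind (sen i j (mix M y z)) :=
            single_le_sum (f := fun j => ∑ y : Finset ι, ind (sen i j (mix M y z)))
              (fun i _ => sum_nonneg fun y _ => ind_nonneg _) hj
          have h4 : ∑ j ∈ M.erase i, ∑ y : Finset ι, ind (sen i j (mix M y z)) ≤
              ∑ i ∈ M, ∑ j ∈ M.erase i, ∑ y : Finset ι, ind (sen i j (mix M y z)) :=
            single_le_sum (f := fun i => ∑ j ∈ M.erase i, ∑ y : Finset ι, ind (sen i j (mix M y z)))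
              (fun i _ => sum_nonneg fun j _ => sum_nonneg fun y _ => ind_nonneg _) hi'
          linarith
      have h1 := tot_le (fun i y => H i (mix M y z)) M
      rw [hMc] at h1
      have h2 : (m : ℝ) * N = m * 2 ^ m * 2 ^ (n - m) := by
        rw [mul_assoc, ← pow_add, Nat.add_sub_cancel' hn]
      have h3 : (m : ℝ) * 2 ^ m * 2 ^ (n - m) ≤ m * 2 ^ m *
          (∑ i ∈ M, ∑ y : Finset ι, ind (mis i (mix M y z)) +
          ∑ i ∈ M, ∑ j ∈ M.erase i, ∑ y : Finset ι, ind (sen i j (mix M y z))) :=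
        mul_le_mul_of_nonneg_left hlarge (by positivity)
      have h4 : 0 ≤ (1 / 2 + ε / 2) * m * N := by positivity
      linarith
  -- sum over all small cubes
  have hsum := sum_le_sum fun M (hM : M ∈ (univ : Finset ι).powersetCard m) =>
    sum_le_sum fun z (_ : z ∈ (univ : Finset (Finset ι))) => hcube M hM z
  have e1 : ∑ M ∈ (univ : Finset ι).powersetCard m, ∑ z : Finset ι,
      tot (fun i y => H i (mix M y z)) M = N * ((n - 1).choose (m - 1) * tot H univ) := by
    have h1 : ∀ M ∈ (univ : Finset ι).powersetCard m, ∑ z : Finset ι,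
        tot (fun i y => H i (mix M y z)) M = N * ∑ i ∈ M, ∑ x : Finset ι, ind (H i x) := by
      intro M _
      unfold tot
      rw [sum_comm, mul_sum]
      exact sum_congr rfl fun i _ => sum_mix M (fun x => ind (H i x))
    rw [sum_congr rfl h1, ← mul_sum, sum_single univ m (by omega), card_univ]
    rfl
  have e2 : ∑ M ∈ (univ : Finset ι).powersetCard m, ∑ z : Finset ι,
      ∑ i ∈ M, ∑ y : Finset ι, ind (mis i (mix M y z)) =
      N * ((n - 1).choose (m - 1) * ∑ i : ι, ∑ x : Finset ι, ind (mis i x)) := by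
    have h1 : ∀ M ∈ (univ : Finset ι).powersetCard m, ∑ z : Finset ι,
        ∑ i ∈ M, ∑ y : Finset ι, ind (mis i (mix M y z)) =
        N * ∑ i ∈ M, ∑ x : Finset ι, ind (mis i x) := by
      intro M _
      rw [sum_comm, mul_sum]
      exact sum_congr rfl fun i _ => sum_mix M (fun x => ind (mis i x))
    rw [sum_congr rfl h1, ← mul_sum, sum_single univ m (by omega), card_univ]
  have e3 : ∑ M ∈ (univ : Finset ι).powersetCard m, ∑ z : Finset ι,
      ∑ i ∈ M, ∑ j ∈ M.erase i, ∑ y : Finset ι, ind (sen i j (mix M y z)) =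
      N * ((n - 2).choose (m - 2) * ∑ i : ι, ∑ j ∈ univ.erase i, ∑ x : Finset ι,
        ind (sen i j x)) := by
    have h1 : ∀ M ∈ (univ : Finset ι).powersetCard m, ∑ z : Finset ι,
        ∑ i ∈ M, ∑ j ∈ M.erase i, ∑ y : Finset ι, ind (sen i j (mix M y z)) =
        N * ∑ i ∈ M, ∑ j ∈ M.erase i, ∑ x : Finset ι, ind (sen i j x) := by
      intro M _
      rw [sum_comm, mul_sum]
      refine sum_congr rfl fun i _ => ?_
      rw [sum_comm, mul_sum]
      exact sum_congr rfl fun j _ => sum_mix M (fun x => ind (sen i j x))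
    rw [sum_congr rfl h1, ← mul_sum, sum_double univ m (by omega), card_univ]
  have e4 : ∀ M ∈ (univ : Finset ι).powersetCard m, ∑ z : Finset ι,
      ((1 / 2 + ε / 2) * m * N +
        m * 2 ^ m * (∑ i ∈ M, ∑ y : Finset ι, ind (mis i (mix M y z)) +
          ∑ i ∈ M, ∑ j ∈ M.erase i, ∑ y : Finset ι, ind (sen i j (mix M y z)))) =
      N * ((1 / 2 + ε / 2) * m * N) +
        m * 2 ^ m * (∑ z : Finset ι, ∑ i ∈ M, ∑ y : Finset ι, ind (mis i (mix M y z)) +
          ∑ z : Finset ι, ∑ i ∈ M, ∑ j ∈ M.erase i, ∑ y : Finset ι, ind (sen i j (mix M y z))) := by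
    intro M _
    rw [sum_add_distrib, sum_const, card_univ, Fintype.card_finset, nsmul_eq_mul, ← mul_sum,
      sum_add_distrib]
    push_cast
    rfl
  rw [e1, sum_congr rfl e4, sum_add_distrib, sum_const, card_powersetCard, card_univ, nsmul_eq_mul,
    ← mul_sum, sum_add_distrib, e2, e3] at hsum
  set W1 : ℝ := (((n - 1).choose (m - 1) : ℕ) : ℝ) with hW1
  set W2 : ℝ := (((n - 2).choose (m - 2) : ℕ) : ℝ) with hW2
  have hW1pos : 0 < W1 := by
    rw [hW1]
    exact_mod_cast Nat.choose_pos (by omega)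
  have hW2nn : 0 ≤ W2 := by rw [hW2]; positivity
  have b1 : (n : ℝ) * W1 = m * (n.choose m : ℕ) := by
    have h1 := Nat.add_one_mul_choose_eq (n - 1) (m - 1)
    rw [show n - 1 + 1 = n by omega, show m - 1 + 1 = m by omega] at h1
    rw [hW1, mul_comm (m : ℝ)]
    exact_mod_cast h1
  have b2 : ((n : ℝ) - 1) * W2 = (m - 1) * W1 := by
    have h1 := Nat.add_one_mul_choose_eq (n - 2) (m - 2)
    rw [show n - 2 + 1 = n - 1 by omega, show m - 2 + 1 = m - 1 by omega] at h1
    have h2 : ((n - 1 : ℕ) : ℝ) = n - 1 := by push_cast [Nat.cast_sub (show 1 ≤ n by omega)]; ring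
    have h3 : ((m - 1 : ℕ) : ℝ) = m - 1 := by push_cast [Nat.cast_sub (show 1 ≤ m by omega)]; ring
    rw [hW2, hW1, ← h2, ← h3, mul_comm (((m - 1 : ℕ) : ℝ))]
    exact_mod_cast h1
  set TM := ∑ i : ι, ∑ x : Finset ι, ind (mis i x) with hTM
  set TS := ∑ i : ι, ∑ j ∈ univ.erase i, ∑ x : Finset ι, ind (sen i j x) with hTS
  have hTS' : TS ≤ δ * n ^ 2 * N := by
    refine le_trans ?_ hS
    refine sum_le_sum fun i _ => ?_
    exact sum_le_sum_of_subset_of_nonneg (erase_subset _ _)
      (fun j _ _ => sum_nonneg fun x _ => ind_nonneg _)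
  have hn2 : (2 : ℝ) ≤ n := by exact_mod_cast (by omega : 2 ≤ n)
  have c1 : W2 * TS ≤ W1 * (2 * (m - 1) * δ * n * N) := by
    calc W2 * TS ≤ W2 * (δ * n ^ 2 * N) := mul_le_mul_of_nonneg_left hTS' hW2nn
      _ ≤ W2 * (δ * (2 * n * (n - 1)) * N) := by
          refine mul_le_mul_of_nonneg_left ?_ hW2nn
          refine mul_le_mul_of_nonneg_right ?_ hN0.le
          refine mul_le_mul_of_nonneg_left ?_ hδ0.le
          nlinarith
      _ = (((n : ℝ) - 1) * W2) * (2 * δ * n * N) := by ring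
      _ = W1 * (2 * (m - 1) * δ * n * N) := by rw [b2]; ring
  have c2 : W1 * TM ≤ W1 * (δ * n * N) := mul_le_mul_of_nonneg_left hMis hW1pos.le
  have c3 : N * (W1 * tot H univ) ≤
      N * (W1 * ((1 / 2 + ε / 2) * n * N + m * 2 ^ m * (δ * n * N + 2 * (m - 1) * δ * n * N))) := by
    calc N * (W1 * tot H univ) ≤ _ := hsum
      _ = N * ((m * (n.choose m : ℕ)) * ((1 / 2 + ε / 2) * N) +
          m * 2 ^ m * (W1 * TM + W2 * TS)) := by ring
      _ ≤ N * ((m * (n.choose m : ℕ)) * ((1 / 2 + ε / 2) * N) +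
          m * 2 ^ m * (W1 * (δ * n * N) + W1 * (2 * (m - 1) * δ * n * N))) := by
          refine mul_le_mul_of_nonneg_left ?_ hN0.le
          have : (m : ℝ) * 2 ^ m * (W1 * TM + W2 * TS) ≤
              m * 2 ^ m * (W1 * (δ * n * N) + W1 * (2 * (m - 1) * δ * n * N)) :=
            mul_le_mul_of_nonneg_left (add_le_add c2 c1) (by positivity)
          linarith
      _ = _ := by rw [← b1]; ring
  have c4 := le_of_mul_le_mul_left (le_of_mul_le_mul_left c3 hN0) hW1pos
  refine c4.trans ?_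
  have c5 : (m : ℝ) * 2 ^ m * (δ + 2 * (m - 1) * δ) ≤ ε / 2 := by
    have h1 : (m : ℝ) * 2 ^ m * (δ + 2 * (m - 1) * δ) ≤ m * 2 ^ m * (2 * m * δ) := by
      refine mul_le_mul_of_nonneg_left ?_ (by positivity)
      nlinarith
    have h2 : (m : ℝ) * 2 ^ m * (2 * m * δ) = ε / 2 := by
      rw [hδ]
      field_simp
    linarith
  calc (1 / 2 + ε / 2) * n * N + m * 2 ^ m * (δ * n * N + 2 * (m - 1) * δ * n * N)
      = (1 / 2 + ε / 2) * n * N + (m * 2 ^ m * (δ + 2 * (m - 1) * δ)) * (n * N) := by ring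
    _ ≤ (1 / 2 + ε / 2) * n * N + ε / 2 * (n * N) := by
        have : (m * 2 ^ m * (δ + 2 * (m - 1) * δ)) * (n * N) ≤ ε / 2 * (n * N) :=
          mul_le_mul_of_nonneg_right c5 (by positivity)
        linarith
    _ = (1 / 2 + ε) * n * N := by ring

end

end Pool.Agent.H.MP_4093f8_co.Poly
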