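import Mathlib

/-! # Sums over all subsets of a finite type -/

namespace Pool.Agent.H.MP_4093f8_co.Poly

open Finset

open Classical in
/-- the indicator of a proposition -/
noncomputable def ind (p : Prop) : ℝ := if p then 1 else 0

theorem ind_nonneg (p : Prop) : 0 ≤ ind p := by unfold ind; split_ifs <;> norm_num
theorem ind_le_one (p : Prop) : ind p ≤ 1 := by unfold ind; split_ifs <;> norm_num
theorem ind_true {p : Prop} (h : p) : ind p = 1 := if_pos h
theorem ind_false {p : Prop} (h : ¬ p) : ind p = 0 := if_neg h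
theorem ind_mono {p q : Prop} (h : p → q) : ind p ≤ ind q := by
  by_cases hp : p
  · rw [ind_true hp, ind_true (h hp)]
  · rw [ind_false hp]; exact ind_nonneg q

section

variable {ι : Type} [DecidableEq ι]

/-- the set which agrees with `y` on `M` and with `z` outside `M` -/
def mix (M y z : Finset ι) : Finset ι := (y ∩ M) ∪ (z \ M)

theorem mem_mix {M y z : Finset ι} {a : ι} : a ∈ mix M y z ↔ (a ∈ y ∧ a ∈ M) ∨ (a ∈ z ∧ a ∉ M) := by
  simp [mix]

theorem mem_mix_of_mem {M y z : Finset ι} {a : ι} (h : a ∈ M) : a ∈ mix M y z ↔ a ∈ y := by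
  simp [mem_mix, h]

theorem mem_mix_of_notMem {M y z : Finset ι} {a : ι} (h : a ∉ M) : a ∈ mix M y z ↔ a ∈ z := by
  simp [mem_mix, h]

theorem mix_mix (M y z : Finset ι) : mix M (mix M y z) (mix M z y) = y := by
  ext a
  by_cases h : a ∈ M
  · rw [mem_mix_of_mem h, mem_mix_of_mem h]
  · rw [mem_mix_of_notMem h, mem_mix_of_notMem h]

theorem mix_inter (M y z : Finset ι) : mix M y z ∩ M = y ∩ M := by
  ext a
  by_cases h : a ∈ M
  · simp [mem_mix_of_mem h, h]
  · simp [h]

theorem mix_sdiff (M y z : Finset ι) : mix M y z \ M = z \ M := by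
  ext a
  by_cases h : a ∈ M
  · simp [h]
  · simp [mem_mix_of_notMem h, h]

end

section

variable {ι : Type} [Fintype ι] [DecidableEq ι]

theorem sum_mix (M : Finset ι) (f : Finset ι → ℝ) :
    ∑ z : Finset ι, ∑ y : Finset ι, f (mix M y z) = 2 ^ Fintype.card ι * ∑ x : Finset ι, f x := by
  have h1 : ∑ p : Finset ι × Finset ι, f (mix M p.1 p.2) = ∑ p : Finset ι × Finset ι, f p.1 := by
    let e : Finset ι × Finset ι ≃ Finset ι × Finset ι :=
      { toFun := fun p => (mix M p.1 p.2, mix M p.2 p.1)
        invFun := fun p => (mix M p.1 p.2, mix M p.2 p.1)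
        left_inv := fun p => by simp only [mix_mix]
        right_inv := fun p => by simp only [mix_mix] }
    exact e.sum_comp (fun p : Finset ι × Finset ι => f p.1)
  rw [Fintype.sum_prod_type, Fintype.sum_prod_type] at h1
  rw [sum_comm, h1]
  simp only [sum_const, card_univ, Fintype.card_finset, nsmul_eq_mul, Nat.cast_pow, Nat.cast_ofNat,
    ← mul_sum]

theorem sum_mul (L : Finset ι) (f g : Finset ι → ℝ) :
    2 ^ Fintype.card ι * ∑ x : Finset ι, f (x ∩ L) * g (x \ L) =
      (∑ y : Finset ι, f (y ∩ L)) * ∑ z : Finset ι, g (z \ L) := by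
  rw [← sum_mix L (fun x => f (x ∩ L) * g (x \ L)), sum_mul_sum, sum_comm]
  simp only [mix_inter, mix_sdiff]

theorem card_fiber (L w : Finset ι) (hw : w ⊆ L) :
    ((univ : Finset (Finset ι)).filter (fun y => y ∩ L = w)).card = 2 ^ (Fintype.card ι - L.card) := by
  have h1 : ((univ : Finset (Finset ι)).filter (fun y => y ∩ L = w)).card = (Lᶜ).powerset.card := by
    refine card_nbij' (fun y => y \ L) (fun v => v ∪ w) ?_ ?_ ?_ ?_
    · intro y _
      simp only [coe_powerset, Set.mem_preimage, Set.mem_powerset_iff, coe_subset]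
      intro a ha
      rw [mem_compl]
      exact (mem_sdiff.mp ha).2
    · intro v hv
      simp only [mem_coe, mem_powerset] at hv
      simp only [coe_filter, mem_univ, true_and, Set.mem_ofPred_eq]
      ext a
      simp only [mem_inter, mem_union]
      constructor
      · rintro ⟨h1 | h1, h2⟩
        · exact absurd h2 (mem_compl.mp (hv h1))
        · exact h1
      · intro h1
        exact ⟨Or.inr h1, hw h1⟩
    · intro y hy
      simp only [coe_filter, mem_univ, true_and, Set.mem_ofPred_eq] at hy
      simp only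
      rw [← hy]
      ext a
      simp only [mem_union, mem_sdiff, mem_inter]
      tauto
    · intro v hv
      simp only [mem_coe, mem_powerset] at hv
      simp only
      ext a
      simp only [mem_union, mem_sdiff]
      constructor
      · rintro ⟨h1 | h1, h2⟩
        · exact h1
        · exact absurd (hw h1) h2
      · intro h1
        exact ⟨Or.inl h1, mem_compl.mp (hv h1)⟩
  rw [h1, card_powerset, card_compl]

theorem sum_inter (L : Finset ι) (f : Finset ι → ℝ) :
    ∑ y : Finset ι, f (y ∩ L) = 2 ^ (Fintype.card ι - L.card) * ∑ w ∈ L.powerset, f w := by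
  rw [← sum_fiberwise_of_maps_to (s := (univ : Finset (Finset ι))) (t := L.powerset)
    (g := fun y => y ∩ L) (fun y _ => mem_powerset.mpr inter_subset_right), mul_sum]
  refine sum_congr rfl fun w hw => ?_
  rw [sum_congr rfl (g := fun _ => f w) (fun y hy => by rw [(mem_filter.mp hy).2]), sum_const,
    card_fiber L w (mem_powerset.mp hw), nsmul_eq_mul]
  norm_num

/-- the total over the directions in `U` -/
noncomputable def tot (F : ι → Finset ι → Prop) (U : Finset ι) : ℝ :=
  ∑ i ∈ U, ∑ y : Finset ι, ind (F i y)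

omit [DecidableEq ι] in
theorem tot_le (F : ι → Finset ι → Prop) (U : Finset ι) : tot F U ≤ U.card * 2 ^ Fintype.card ι := by
  unfold tot
  calc ∑ i ∈ U, ∑ y : Finset ι, ind (F i y) ≤ ∑ i ∈ U, ∑ y : Finset ι, (1 : ℝ) :=
        sum_le_sum fun i _ => sum_le_sum fun y _ => ind_le_one _
    _ = U.card * 2 ^ Fintype.card ι := by simp

theorem block (F : ι → Finset ι → Prop) (S : Finset ι) (m R : ℕ) (κ : ℝ) (hκ : 0 ≤ κ) (hm : 0 < m)
    (h : ∀ U ⊆ S, R ≤ U.card → ∃ M ⊆ U, M.card = m ∧
      ∀ z, tot (fun i y => F i (mix M y z)) M ≤ κ * m * 2 ^ Fintype.card ι) :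
    ∀ U ⊆ S, tot F U ≤ (κ * U.card + R) * 2 ^ Fintype.card ι := by
  intro U
  induction U using Finset.strongInduction with
  | H U ih =>
    intro hU
    have hN : (0 : ℝ) < 2 ^ Fintype.card ι := by positivity
    by_cases hR : R ≤ U.card
    · obtain ⟨M, hMU, hMc, hM⟩ := h U hU hR
      have h1 : tot F M ≤ κ * m * 2 ^ Fintype.card ι := by
        have h2 : ∑ z : Finset ι, tot (fun i y => F i (mix M y z)) M =
            2 ^ Fintype.card ι * tot F M := by
          unfold tot
          rw [sum_comm, mul_sum]
          refine sum_congr rfl fun i _ => ?_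
          exact sum_mix M (fun x => ind (F i x))
        have h3 : ∑ z : Finset ι, tot (fun i y => F i (mix M y z)) M ≤
            ∑ _z : Finset ι, κ * m * 2 ^ Fintype.card ι := sum_le_sum fun z _ => hM z
        rw [h2, sum_const, card_univ, Fintype.card_finset, nsmul_eq_mul] at h3
        push_cast at h3
        exact le_of_mul_le_mul_left h3 hN
      have h2 : U \ M ⊂ U := by
        refine ⟨sdiff_subset, fun h3 => ?_⟩
        have h4 : M.Nonempty := card_pos.mp (by omega)
        obtain ⟨a, ha⟩ := h4
        exact (mem_sdiff.mp (h3 (hMU ha))).2 ha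
      have h3 := ih (U \ M) h2 (h2.1.trans hU)
      have h4 : tot F U = tot F (U \ M) + tot F M := by
        unfold tot
        rw [sum_sdiff hMU]
      have h5 : (U.card : ℝ) = (U \ M).card + m := by
        have := card_sdiff_add_card_eq_card hMU
        rw [hMc] at this
        exact_mod_cast this.symm
      rw [h4, h5]
      linarith
    · have h1 := tot_le F U
      have h2 : (U.card : ℝ) ≤ R := by exact_mod_cast (not_le.mp hR).le
      calc tot F U ≤ U.card * 2 ^ Fintype.card ι := h1
        _ ≤ (κ * U.card + R) * 2 ^ Fintype.card ι := by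
          apply mul_le_mul_of_nonneg_right _ hN.le
          have : 0 ≤ κ * U.card := by positivity
          linarith

end

end Pool.Agent.H.MP_4093f8_co.Poly
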