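import Mathlib
import Pool.Prelude.Def_F_a92f9a66

/-! # Definitions for the statement -/

namespace Pool.Agent.H.MP_4093f8_co.Poly

open SimpleGraph Finset

variable {n : ℕ}

/-- The vertex `x` of `Q_n` with its coordinate `i` switched. -/
def flip (x : Fin n → Bool) (i : Fin n) : Fin n → Bool := Function.update x i (!x i)

open Classical in
/-- The value at `x` of the polynomial of degree at most `d` with coefficients `c T` in the abelian
group `A`: the sum of `c T` over the sets `T` of at most `d` coordinates which are all `true`
at `x`. -/
noncomputable def poly {A : Type} [AddCommGroup A] (d : ℕ) (c : Finset (Fin n) → A)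
    (x : Fin n → Bool) : A :=
  ∑ T with T.card ≤ d ∧ ∀ i ∈ T, x i = true, c T

/-- The number of pairs of a vertex `x` and a direction `j` such that `g` changes along the edge of
`Q_n` at `x` in direction `j`; this is `2 ^ n` times the total influence of `g`. -/
noncomputable def sensitivity {B : Type} (g : (Fin n → Bool) → B) : ℕ :=
  {p : (Fin n → Bool) × Fin n | g (flip p.1 p.2) ≠ g p.1}.ncard

end Pool.Agent.H.MP_4093f8_co.Poly
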