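import Pool.Agent.H.MP_4093f8_co.Poly.Defs
import Pool.Agent.H.MP_4093f8_co.Poly.Average

/-! # Translation to subgraphs of the hypercube -/

namespace Pool.Agent.H.MP_4093f8_co.Poly

open SimpleGraph Finset

variable {n : ℕ}

lemma flip_flip (x : Fin n → Bool) (i : Fin n) : flip (flip x i) i = x := by
  funext k
  by_cases h : k = i
  · subst h; simp [flip]
  · simp [flip, h]

lemma flip_comm (x : Fin n → Bool) (i j : Fin n) : flip (flip x i) j = flip (flip x j) i := by
  by_cases hij : i = j
  · subst hij; rfl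
  · funext k
    by_cases h1 : k = i
    · subst h1
      simp [flip, hij]
    · by_cases h2 : k = j
      · subst h2
        simp [flip, h1]
      · simp [flip, h1, h2]

lemma flip_apply_self (x : Fin n → Bool) (i : Fin n) : flip x i i = !x i := by simp [flip]

lemma flip_apply_ne (x : Fin n → Bool) {i k : Fin n} (h : k ≠ i) : flip x i k = x k := by
  simp [flip, h]

lemma flip_ne (x : Fin n → Bool) (i : Fin n) : flip x i ≠ x := by
  intro h
  have := congrFun h i
  simp [flip] at this

lemma hyper_adj_iff (x y : Fin n → Bool) : (hypercube n).Adj x y ↔ ∃ i, y = flip x i := by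
  rw [hypercube_adj, Finset.card_eq_one]
  constructor
  · rintro ⟨i, hi⟩
    refine ⟨i, ?_⟩
    funext k
    by_cases h : k = i
    · subst h
      have : k ∈ ({k} : Finset (Fin n)) := by simp
      rw [← hi] at this
      simp only [ne_eq, mem_filter, mem_univ, true_and] at this
      rw [flip_apply_self]
      cases hx : x k <;> cases hy : y k <;> simp_all
    · have : k ∉ ({i} : Finset (Fin n)) := by simpa using h
      rw [← hi] at this
      simp only [ne_eq, mem_filter, mem_univ, true_and, not_not] at this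
      rw [flip_apply_ne x h, this]
  · rintro ⟨i, rfl⟩
    refine ⟨i, ?_⟩
    ext k
    by_cases h : k = i
    · subst h
      simp [flip]
    · simp [flip, h]

lemma flip_flip_ne (x : Fin n → Bool) {i j : Fin n} (hij : i ≠ j) : flip (flip x i) j ≠ x := by
  intro h
  have := congrFun h j
  rw [flip_apply_self, flip_apply_ne x hij.symm] at this
  cases hx : x j <;> simp [hx] at this

lemma flip_ne_flip (x : Fin n → Bool) {i j : Fin n} (hij : i ≠ j) : flip x i ≠ flip x j := by
  intro h
  apply flip_flip_ne x hij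
  rw [h, flip_flip]

/-- A four-cycle of `Q_n` all of whose edges are in `H` gives a copy of `C4`. -/
lemma contained (H : SimpleGraph (Fin n → Bool)) (x : Fin n → Bool) {i j : Fin n} (hij : i ≠ j)
    (h1 : H.Adj x (flip x i)) (h2 : H.Adj (flip x i) (flip (flip x i) j))
    (h3 : H.Adj (flip x j) (flip (flip x i) j)) (h4 : H.Adj x (flip x j)) :
    cycleGraph 4 ⊑ H := by
  let f : Fin 4 → (Fin n → Bool) := ![x, flip x i, flip (flip x i) j, flip x j]
  have n1 := flip_ne x i
  have n2 := flip_ne x j
  have n3 := flip_flip_ne x hij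
  have n4 := flip_ne_flip x hij
  have n5 := flip_ne (flip x i) j
  have n6 : flip (flip x i) j ≠ flip x j := by
    rw [flip_comm]; exact flip_ne (flip x j) i
  refine ⟨⟨⟨f, ?_⟩, ?_⟩⟩
  · intro a b hab
    rw [cycleGraph_adj'] at hab
    fin_cases a <;> fin_cases b <;>
      simp [f] at hab ⊢ <;>
      first
        | exact h1 | exact h1.symm | exact h2 | exact h2.symm | exact h3 | exact h3.symm
        | exact h4 | exact h4.symm | (exfalso; revert hab; decide)
  · intro a b hab
    fin_cases a <;> fin_cases b <;>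
      simp [f, n1, n2, n3, n4, n5, n6, n1.symm, n2.symm, n3.symm, n4.symm, n5.symm, n6.symm]
        at hab ⊢

open Classical in
/-- The degree of `x` in `H`. -/
noncomputable def dg (H : SimpleGraph (Fin n → Bool)) (x : Fin n → Bool) : ℝ :=
  ((univ.filter fun i => H.Adj x (flip x i)).card : ℝ)

lemma degree_eq (H : SimpleGraph (Fin n → Bool)) (hH : H ≤ hypercube n) (x : Fin n → Bool)
    [Fintype (H.neighborSet x)] : (H.degree x : ℝ) = dg H x := by
  classical
  unfold dg
  rw [← SimpleGraph.card_neighborFinset_eq_degree]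
  congr 1
  symm
  apply Finset.card_bij (fun i _ => flip x i)
  · intro i hi
    simpa using hi
  · intro i _ j _ hij
    by_contra h
    exact flip_ne_flip x h hij
  · intro y hy
    rw [mem_neighborFinset] at hy
    obtain ⟨i, rfl⟩ := (hyper_adj_iff x y).1 (hH hy)
    exact ⟨i, by simpa using hy, rfl⟩

lemma sum_dg (H : SimpleGraph (Fin n → Bool)) (hH : H ≤ hypercube n) :
    ∑ x, dg H x = 2 * (H.edgeSet.ncard : ℝ) := by
  classical
  have h1 := H.sum_degrees_eq_twice_card_edges
  have h2 : H.edgeSet.ncard = H.edgeFinset.card := by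
    rw [Set.ncard_eq_toFinset_card']
    rfl
  rw [h2]
  have h3 : ((∑ v, H.degree v : ℕ) : ℝ) = ((2 * H.edgeFinset.card : ℕ) : ℝ) := by rw [h1]
  push_cast at h3
  rw [← h3]
  exact Finset.sum_congr rfl fun x _ => (degree_eq H hH x).symm

/-- the vertex of a set of coordinates -/
def vec (s : Finset (Fin n)) : Fin n → Bool := fun i => decide (i ∈ s)

/-- the set of the coordinates which are `true` -/
def ones (x : Fin n → Bool) : Finset (Fin n) := univ.filter (fun i => x i = true)

/-- vertices as sets of coordinates -/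
def eqv (n : ℕ) : Finset (Fin n) ≃ (Fin n → Bool) where
  toFun := vec
  invFun := ones
  left_inv s := by ext i; simp [vec, ones]
  right_inv x := by
    funext i
    simp only [vec, ones, mem_filter, mem_univ, true_and]
    cases x i <;> simp

lemma vec_tog (s : Finset (Fin n)) (j : Fin n) : vec (tog j s) = flip (vec s) j := by
  funext k
  by_cases h : k = j
  · subst h
    rw [flip_apply_self]
    unfold tog vec
    by_cases hk : k ∈ s
    · simp [hk]
    · simp [hk]
  · rw [flip_apply_ne _ h]
    unfold tog vec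
    by_cases hk : j ∈ s
    · simp [hk, h]
    · simp [hk, h]

lemma poly_vec {A : Type} [AddCommGroup A] (d : ℕ) (c : Finset (Fin n) → A)
    (s : Finset (Fin n)) : poly d c (vec s) = polyval (d + 1) c s := by
  unfold poly polyval
  rw [← sum_filter]
  refine sum_congr ?_ fun _ _ => rfl
  ext T
  simp only [mem_filter, mem_univ, true_and, mem_powerset, vec, decide_eq_true_eq,
    Nat.lt_succ_iff]
  exact ⟨fun h => ⟨fun i hi => h.2 i hi, h.1⟩, fun h => ⟨h.2, fun i hi => h.1 hi⟩⟩

lemma sum_vec (f : (Fin n → Bool) → ℝ) : ∑ s : Finset (Fin n), f (vec s) = ∑ x, f x :=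
  Equiv.sum_comp (eqv n) f

lemma sum_ind_ncard {α : Type} [Fintype α] (p : α → Prop) :
    ∑ a, ind (p a) = ({a | p a}.ncard : ℝ) := by
  classical
  unfold ind
  rw [sum_boole, Set.ncard_eq_toFinset_card']
  congr 2
  ext a
  simp

theorem main_graph (A : Type) [AddCommGroup A] [Finite A] (d : ℕ) (ε : ℝ) (hε : 0 < ε) :
    ∃ δ : ℝ, 0 < δ ∧ ∃ n₀ : ℕ, ∀ n ≥ n₀, ∀ H : SimpleGraph (Fin n → Bool), H ≤ hypercube n →
      ¬ cycleGraph 4 ⊑ H →
      ∀ (c : Fin n → Finset (Fin n) → A) (B : Type) (g : Fin n → (Fin n → Bool) → B)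
        (Φ : Fin n → A → B → Prop),
        ∑ i, (sensitivity (g i) : ℝ) ≤ δ * n ^ 2 * 2 ^ n →
        ({p : Fin n × (Fin n → Bool) | ¬ (H.Adj p.2 (flip p.2 p.1) ↔
          Φ p.1 (poly d (c p.1) p.2) (g p.1 p.2))}.ncard : ℝ) ≤ δ * n * 2 ^ n →
        (H.edgeSet.ncard : ℝ) ≤ (1 / 2 + ε) * n * 2 ^ (n - 1) := by
  obtain ⟨δ, hδ, n₀, h⟩ := main_system A d ε hε
  refine ⟨δ, hδ, n₀ + 1, fun n hn H hH hC c B g Φ hS hM => ?_⟩
  have key := h (Fin n) (by rw [Fintype.card_fin]; omega) B
    (fun i s => H.Adj (vec s) (flip (vec s) i)) ?_ ?_ c (fun i s => g i (vec s)) Φ ?_ ?_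
  · rw [Fintype.card_fin] at key
    have e1 : tot (fun i s => H.Adj (vec s) (flip (vec s) i)) (univ : Finset (Fin n)) =
        2 * (H.edgeSet.ncard : ℝ) := by
      rw [← sum_dg H hH]
      unfold tot
      rw [sum_comm, sum_vec (fun x => ∑ i, ind (H.Adj x (flip x i)))]
      refine sum_congr rfl fun x _ => ?_
      unfold ind dg
      rw [sum_boole]
    rw [e1] at key
    have e2 : (2 : ℝ) ^ n = 2 * 2 ^ (n - 1) := by
      rw [← pow_succ', Nat.sub_add_cancel (by omega)]
    rw [e2] at key
    linarith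
  · intro i s
    by_cases hi' : i ∈ s
    · have h1 : s.erase i = tog i s := by rw [tog, if_pos hi']
      rw [h1, vec_tog, flip_flip]
      exact H.adj_comm _ _
    · rw [erase_eq_of_notMem hi']
  · intro i _ j _ hij s hi' hj
    rintro ⟨h1, h2, h3, h4⟩
    have e1 : insert j s = tog j s := by rw [tog, if_neg hj]
    have e2 : insert i s = tog i s := by rw [tog, if_neg hi']
    rw [e1, vec_tog] at h2
    rw [e2, vec_tog] at h4
    refine hC (contained H (vec s) hij h1 h4 ?_ h3)
    rw [flip_comm]
    exact h2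
  · rw [Fintype.card_fin]
    refine le_trans (le_of_eq ?_) hS
    refine sum_congr rfl fun i _ => ?_
    unfold sensitivity
    rw [← sum_ind_ncard, Fintype.sum_prod_type, sum_comm]
    rw [← sum_vec (fun x => ∑ j, ind (g i (flip x j) ≠ g i x))]
    refine sum_congr rfl fun s _ => sum_congr rfl fun j _ => ?_
    rw [vec_tog]
  · rw [Fintype.card_fin]
    refine le_trans (le_of_eq ?_) hM
    rw [← sum_ind_ncard, Fintype.sum_prod_type]
    refine sum_congr rfl fun i _ => ?_
    rw [← sum_vec (fun x => ind (¬ (H.Adj x (flip x i) ↔ Φ i (poly d (c i) x) (g i x))))]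
    refine sum_congr rfl fun s _ => ?_
    rw [poly_vec]

end Pool.Agent.H.MP_4093f8_co.Poly
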