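import Pool.Agent.H.MP_4093f8_co.Poly.Step

/-! # The induction on the degree -/

namespace Pool.Agent.H.MP_4093f8_co.Poly

open Finset

/-- In direction `i` of `S` the system depends on the numbers of ones below and above `i` modulo `Q`
and on the value of a polynomial of degree less than `k` in the coordinates of `S` other than `i`. -/
def Level (Q k : ℕ) (A : Type) [AddCommGroup A] {ι : Type} [LinearOrder ι]
    (F : ι → Finset ι → Prop) (S : Finset ι) : Prop :=
  ∃ (c : ι → Finset ι → A) (Ψ : ι → ZMod Q → ZMod Q → A → Prop),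
    ∀ i ∈ S, ∀ y, F i y ↔ Ψ i ((y ∩ lo S i).card : ℕ) ((y ∩ hi S i).card : ℕ)
      (polyval k (c i) (y ∩ S.erase i))

/-- the statement for degree less than `k` -/
def Bound (k : ℕ) (A : Type) [AddCommGroup A] : Prop :=
  ∀ (Q : ℕ), Q ≠ 0 → ∀ (ε : ℝ), 0 < ε → ∃ n₀ : ℕ, ∀ (ι : Type) [Fintype ι] [LinearOrder ι]
    (S : Finset ι) (F : ι → Finset ι → Prop), n₀ ≤ S.card → Level Q k A F S → C4Free F S →
      tot F S ≤ (1 / 2 + ε) * S.card * 2 ^ Fintype.card ι

theorem bound_zero (A : Type) [AddCommGroup A] : Bound 0 A := by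
  intro Q hQ ε hε
  have : NeZero Q := ⟨hQ⟩
  obtain ⟨n₀, hn₀⟩ := level_zero Q ε hε
  refine ⟨n₀, fun ι _ _ S F hS hF hfree => hn₀ ι S F hS ?_ hfree⟩
  obtain ⟨c, Ψ, h⟩ := hF
  refine ⟨fun i a b => Ψ i a b 0, fun i hi' y => ?_⟩
  rw [h i hi' y]
  have h1 : polyval 0 (c i) (y ∩ S.erase i) = 0 := by
    unfold polyval
    refine sum_eq_zero fun T _ => ?_
    rw [if_neg (by omega)]
  rw [h1]

section

variable {ι : Type} [LinearOrder ι]

theorem C4Free.restrict {F : ι → Finset ι → Prop} {S M : Finset ι} (h : C4Free F S) (hM : M ⊆ S)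
    (z : Finset ι) : C4Free (fun i y => F i (mix M y z)) M := by
  intro i hi' j hj hij y hiy hjy
  have e1 : ∀ a ∈ M, mix M (insert a y) z = insert a (mix M y z) := by
    intro a ha
    ext b
    rw [mem_insert]
    by_cases hb : b ∈ M
    · rw [mem_mix_of_mem hb, mem_mix_of_mem hb, mem_insert]
    · rw [mem_mix_of_notMem hb, mem_mix_of_notMem hb]
      constructor
      · intro h1; exact Or.inr h1
      · rintro (h1 | h1)
        · exact absurd (h1 ▸ ha) hb
        · exact h1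
  simp only [e1 i hi', e1 j hj]
  refine h i (hM hi') j (hM hj) hij (mix M y z) ?_ ?_
  · rw [mem_mix_of_mem hi']; exact hiy
  · rw [mem_mix_of_mem hj]; exact hjy

theorem mix_inter_sub (M P y z : Finset ι) :
    mix M y z ∩ P = (y ∩ (P ∩ M)) ∪ ((z \ M) ∩ P) := by
  ext a
  by_cases h : a ∈ M
  · simp only [mem_inter, mem_union, mem_sdiff, mem_mix_of_mem h, h]
    tauto
  · simp only [mem_inter, mem_union, mem_sdiff, mem_mix_of_notMem h, h]
    tauto

theorem lo_inter {S M : Finset ι} (hM : M ⊆ S) (i : ι) : lo S i ∩ M = lo M i := by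
  ext a
  rw [mem_inter, mem_lo, mem_lo]
  constructor
  · rintro ⟨⟨_, h1⟩, h2⟩; exact ⟨h2, h1⟩
  · rintro ⟨h1, h2⟩; exact ⟨⟨hM h1, h2⟩, h1⟩

theorem hi_inter {S M : Finset ι} (hM : M ⊆ S) (i : ι) : hi S i ∩ M = hi M i := by
  ext a
  rw [mem_inter, mem_hi, mem_hi]
  constructor
  · rintro ⟨⟨_, h1⟩, h2⟩; exact ⟨h2, h1⟩
  · rintro ⟨h1, h2⟩; exact ⟨⟨hM h1, h2⟩, h1⟩

theorem erase_inter' {S M : Finset ι} (hM : M ⊆ S) (i : ι) : S.erase i ∩ M = M.erase i := by
  ext a
  rw [mem_inter, mem_erase, mem_erase]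
  constructor
  · rintro ⟨⟨h1, _⟩, h2⟩; exact ⟨h1, h2⟩
  · rintro ⟨h1, h2⟩; exact ⟨⟨h1, hM h2⟩, h2⟩

theorem disj_aux {M : Finset ι} (y z P R : Finset ι) (h : R ⊆ M) :
    Disjoint (y ∩ R) ((z \ M) ∩ P) := by
  rw [disjoint_left]
  intro a h1 h2
  exact (mem_sdiff.mp (mem_inter.mp h2).1).2 (h (mem_inter.mp h1).2)

theorem lo_subset (S : Finset ι) (i : ι) : lo S i ⊆ S := fun _ ha => (mem_lo.mp ha).1
theorem hi_subset (S : Finset ι) (i : ι) : hi S i ⊆ S := fun _ ha => (mem_hi.mp ha).1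

/-- Homogeneous coefficients of degree `k` on `M`: the coefficient of `T` in the polynomial of the
direction `i` depends only on the position of `i` in `T`. -/
theorem level_restrict (Q k : ℕ) (hQ : Q ≠ 0) (A : Type) [AddCommGroup A] [Fintype A]
    {F : ι → Finset ι → Prop} {S M : Finset ι} (hM : M ⊆ S)
    (c : ι → Finset ι → A) (Ψ : ι → ZMod Q → ZMod Q → A → Prop)
    (h : ∀ i ∈ S, ∀ y, F i y ↔ Ψ i ((y ∩ lo S i).card : ℕ) ((y ∩ hi S i).card : ℕ)
      (polyval (k + 1) (c i) (y ∩ S.erase i)))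
    (γ : ℕ → A) (hγ : ∀ i ∈ M, ∀ T ⊆ M.erase i, T.card = k → c i T = γ (lo T i).card)
    (z : Finset ι) :
    Level (Q * (Fintype.card A * k.factorial)) k A (fun i y => F i (mix M y z)) M := by
  set e := Fintype.card A * k.factorial with he
  have he0 : e ≠ 0 := Nat.mul_ne_zero Fintype.card_ne_zero (Nat.factorial_ne_zero k)
  have hQe : NeZero (Q * e) := ⟨Nat.mul_ne_zero hQ he0⟩
  refine ⟨fun i T₁ => ∑ T₂ ∈ ((z \ M) ∩ S.erase i).powerset,
      if (T₁ ∪ T₂).card < k + 1 then c i (T₁ ∪ T₂) else 0,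
    fun i a b v => Ψ i ((a.val + ((z \ M) ∩ lo S i).card : ℕ) : ZMod Q)
      ((b.val + ((z \ M) ∩ hi S i).card : ℕ) : ZMod Q) (v + top k γ a.val b.val), ?_⟩
  intro i hiM y
  have hiS := hM hiM
  beta_reduce
  rw [h i hiS]
  have e1 : ((mix M y z ∩ lo S i).card : ℕ) = (y ∩ lo M i).card + ((z \ M) ∩ lo S i).card := by
    rw [mix_inter_sub, lo_inter hM, card_union_of_disjoint (disj_aux _ _ _ _ (lo_subset M i))]
  have e2 : ((mix M y z ∩ hi S i).card : ℕ) = (y ∩ hi M i).card + ((z \ M) ∩ hi S i).card := by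
    rw [mix_inter_sub, hi_inter hM, card_union_of_disjoint (disj_aux _ _ _ _ (hi_subset M i))]
  have e3 : mix M y z ∩ S.erase i = (y ∩ M.erase i) ∪ ((z \ M) ∩ S.erase i) := by
    rw [mix_inter_sub, erase_inter' hM]
  rw [e1, e2, e3, polyval_union _ _ _ _ (disj_aux _ _ _ _ (erase_subset _ _))]
  set c' : Finset ι → A := fun T₁ => ∑ T₂ ∈ ((z \ M) ∩ S.erase i).powerset,
      if (T₁ ∪ T₂).card < k + 1 then c i (T₁ ∪ T₂) else 0 with hc'
  have e4 : polyval (k + 1) c' (y ∩ M.erase i) = polyval k c' (y ∩ M.erase i) +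
      top k γ (y ∩ lo M i).card (y ∩ hi M i).card := by
    have h1 : Disjoint (y ∩ lo M i) (y ∩ hi M i) :=
      disjoint_of_subset_left inter_subset_right
        (disjoint_of_subset_right inter_subset_right (disjoint_lo_hi M i))
    have h2 : (y ∩ lo M i) ∪ (y ∩ hi M i) = y ∩ M.erase i := by
      ext a
      simp only [mem_union, mem_inter, mem_lo, mem_hi, mem_erase]
      constructor
      · rintro (⟨h3, h4, h5⟩ | ⟨h3, h4, h5⟩)
        · exact ⟨h3, h5.ne, h4⟩
        · exact ⟨h3, h5.ne', h4⟩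
      · rintro ⟨h3, h4, h5⟩
        rcases lt_or_gt_of_ne h4 with h6 | h6
        · exact Or.inl ⟨h3, h5, h6⟩
        · exact Or.inr ⟨h3, h5, h6⟩
    rw [← top_eq k γ _ _ h1, h2]
    unfold polyval
    rw [← sum_add_distrib]
    refine sum_congr rfl fun T hT => ?_
    have hTM : T ⊆ M.erase i := (mem_powerset.mp hT).trans inter_subset_right
    rcases lt_trichotomy T.card k with h3 | h3 | h3
    · rw [if_pos (by omega), if_pos h3, if_neg (by omega), add_zero]
    · rw [if_pos (by omega), if_neg (by omega), if_pos h3, zero_add, hc']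
      simp only
      have h4 : Disjoint T ((z \ M) ∩ S.erase i) := by
        rw [disjoint_left]
        intro a h5 h6
        exact (mem_sdiff.mp (mem_inter.mp h6).1).2 (mem_of_mem_erase (hTM h5))
      rw [coeff_top k (c i) _ T h4 h3, hγ i hiM T hTM h3]
      congr 2
      ext a
      rw [mem_lo, mem_inter, mem_inter, mem_lo]
      constructor
      · rintro ⟨h5, h6⟩
        exact ⟨h5, (mem_inter.mp (mem_powerset.mp hT h5)).1, mem_of_mem_erase (hTM h5), h6⟩
      · rintro ⟨h5, _, _, h6⟩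
        exact ⟨h5, h6⟩
    · rw [if_neg (by omega), if_neg (by omega), if_neg (by omega), add_zero]
  rw [e4]
  have key : ∀ x : ℕ, ((x : ZMod (Q * e)).val : ℕ) ≡ x [MOD Q * e] := by
    intro x
    rw [ZMod.val_natCast]
    exact Nat.mod_modEq _ _
  have k1 : ∀ x w : ℕ, (((x : ZMod (Q * e)).val + w : ℕ) : ZMod Q) = ((x + w : ℕ) : ZMod Q) := by
    intro x w
    rw [ZMod.natCast_eq_natCast_iff]
    exact ((key x).of_dvd (Dvd.intro _ rfl)).add_right w
  have k2 : top k γ ((((y ∩ lo M i).card : ℕ) : ZMod (Q * e)).val)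
      ((((y ∩ hi M i).card : ℕ) : ZMod (Q * e)).val) =
      top k γ (y ∩ lo M i).card (y ∩ hi M i).card :=
    top_congr k γ ((key _).of_dvd (Dvd.intro_left _ rfl)) ((key _).of_dvd (Dvd.intro_left _ rfl))
  rw [k1, k1, k2]

/-- Ramsey's theorem for the coefficients. -/
theorem homogeneous (k m : ℕ) (A : Type) [AddCommGroup A] [Finite A] :
    ∃ R : ℕ, ∀ (ι : Type) [LinearOrder ι] (U : Finset ι), R ≤ U.card →
      ∀ c : ι → Finset ι → A, ∃ M ⊆ U, M.card = m ∧ ∃ γ : ℕ → A,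
        ∀ i ∈ M, ∀ T ⊆ M.erase i, T.card = k → c i T = γ (lo T i).card := by
  obtain ⟨R, hR⟩ := ramsey (k + 1) (Fin (k + 1) → A) m
  refine ⟨R, fun ι _ U hU c => ?_⟩
  obtain ⟨M, hMU, hMc, γ, hγ⟩ := hR ι U hU (fun W p =>
    ∑ i ∈ W.filter (fun i => (lo W i).card = p), c i (W.erase i))
  refine ⟨M, hMU, hMc, fun p => if h : p < k + 1 then γ ⟨p, h⟩ else 0, ?_⟩
  intro i hi' T hT hTc
  have hiT : i ∉ T := fun h => absurd (hT h) (notMem_erase i M)
  have hW : insert i T ⊆ M := by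
    intro a ha
    rcases mem_insert.mp ha with rfl | ha
    · exact hi'
    · exact mem_of_mem_erase (hT ha)
  have hWc : (insert i T).card = k + 1 := by rw [card_insert_of_notMem hiT, hTc]
  have h1 := hγ (insert i T) hW hWc
  have hlo : lo (insert i T) i = lo T i := by
    ext a
    rw [mem_lo, mem_lo, mem_insert]
    constructor
    · rintro ⟨h2 | h2, h3⟩
      · exact absurd h3 (by rw [h2]; exact lt_irrefl _)
      · exact ⟨h2, h3⟩
    · rintro ⟨h2, h3⟩
      exact ⟨Or.inr h2, h3⟩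
  have hp : (lo T i).card < k + 1 := by
    have := card_le_card (lo_subset T i)
    omega
  have h2 := congrFun h1 ⟨(lo T i).card, hp⟩
  simp only at h2
  have h3 : (insert i T).filter (fun j => (lo (insert i T) j).card = (lo T i).card) = {i} := by
    ext j
    rw [mem_filter, mem_singleton]
    constructor
    · rintro ⟨h4, h5⟩
      by_contra h6
      rcases lt_or_gt_of_ne h6 with h7 | h7
      · have h8 : lo (insert i T) j ⊂ lo (insert i T) i := by
          refine ⟨fun a ha => ?_, fun h9 => ?_⟩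
          · exact mem_lo.mpr ⟨(mem_lo.mp ha).1, (mem_lo.mp ha).2.trans h7⟩
          · exact lt_irrefl _ (mem_lo.mp (h9 (mem_lo.mpr ⟨h4, h7⟩))).2
        have h9 := card_lt_card h8
        rw [hlo] at h9
        omega
      · have h8 : lo (insert i T) i ⊂ lo (insert i T) j := by
          refine ⟨fun a ha => ?_, fun h9 => ?_⟩
          · exact mem_lo.mpr ⟨(mem_lo.mp ha).1, (mem_lo.mp ha).2.trans h7⟩
          · exact lt_irrefl _ (mem_lo.mp (h9 (mem_lo.mpr ⟨mem_insert_self i T, h7⟩))).2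
        have h9 := card_lt_card h8
        rw [hlo] at h9
        omega
    · rintro rfl
      exact ⟨mem_insert_self _ _, by rw [hlo]⟩
  rw [h3, sum_singleton, erase_insert hiT] at h2
  rw [h2]
  beta_reduce
  rw [dif_pos hp]

end

theorem bound_succ (k : ℕ) (A : Type) [AddCommGroup A] [Finite A] (h : Bound k A) :
    Bound (k + 1) A := by
  have := Fintype.ofFinite A
  intro Q hQ ε hε
  have he0 : Q * (Fintype.card A * k.factorial) ≠ 0 :=
    Nat.mul_ne_zero hQ (Nat.mul_ne_zero Fintype.card_ne_zero (Nat.factorial_ne_zero k))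
  obtain ⟨n₁, hn₁⟩ := h (Q * (Fintype.card A * k.factorial)) he0 (ε / 2) (by positivity)
  obtain ⟨R, hR⟩ := homogeneous k (n₁ + 1) A
  obtain ⟨n₀, hn₀⟩ := exists_nat_gt (2 * R / ε)
  refine ⟨n₀, fun ι _ _ S F hS hF hfree => ?_⟩
  obtain ⟨c, Ψ, hcΨ⟩ := hF
  have h1 := block F S (n₁ + 1) R (1 / 2 + ε / 2) (by positivity) (by omega) ?_ S (Subset.refl S)
  · have hN : (0 : ℝ) < 2 ^ Fintype.card ι := by positivity
    refine h1.trans (mul_le_mul_of_nonneg_right ?_ hN.le)
    have h2 : (n₀ : ℝ) ≤ S.card := by exact_mod_cast hS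
    have h3 : 2 * R / ε < S.card := hn₀.trans_le h2
    rw [div_lt_iff₀ hε] at h3
    linarith
  · intro U hU hUR
    obtain ⟨M, hMU, hMc, γ, hγ⟩ := hR ι U hUR c
    refine ⟨M, hMU, hMc, fun z => ?_⟩
    have h2 := hn₁ ι M (fun i y => F i (mix M y z)) (by omega)
      (level_restrict Q k hQ A (hMU.trans hU) c Ψ hcΨ γ hγ z) (hfree.restrict (hMU.trans hU) z)
    rw [hMc] at h2
    exact h2

theorem bound (k : ℕ) (A : Type) [AddCommGroup A] [Finite A] : Bound k A := by
  induction k with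
  | zero => exact bound_zero A
  | succ k ih => exact bound_succ k A ih

end Pool.Agent.H.MP_4093f8_co.Poly
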