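import Pool.Agent.H.MP_4093f8_co.Poly.Zero

/-! # The bound for systems depending only on the numbers of ones below and above, modulo `Q` -/

namespace Pool.Agent.H.MP_4093f8_co.Poly

open Finset

section

variable {Q : ℕ} [NeZero Q]

theorem ind_add_le {p q : Prop} (h : ¬ (p ∧ q)) (a b c : ℝ) (ha : a ≤ c) (hb : b ≤ c)
    (hc : 0 ≤ c) : a * ind p + b * ind q ≤ c := by
  by_cases hp : p
  · have hq : ¬ q := fun hq => h ⟨hp, hq⟩
    rw [ind_true hp, ind_false hq]; linarith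
  · rw [ind_false hp]
    by_cases hq : q
    · rw [ind_true hq]; linarith
    · rw [ind_false hq]; linarith

theorem half (α β : ZMod Q → ℝ) (Ψ : ZMod Q → ZMod Q → Prop) (c : ℝ)
    (hα0 : ∀ s, 0 ≤ α s) (hβ0 : ∀ s, 0 ≤ β s) (hα1 : ∑ s, α s = 1) (hβ1 : ∑ s, β s = 1)
    (hα : ∀ s, α s ≤ c) (hβ : ∀ s, β s ≤ c) (h : ∀ T, ¬ (VV Ψ T ∧ HH Ψ T)) :
    2 * ∑ s : ZMod Q, ∑ t : ZMod Q, α s * β t * ind (Ψ s t) ≤ Q * c := by
  have hc : 0 ≤ c := (hα0 0).trans (hα 0)
  set D : ZMod Q → ℝ := fun T => ∑ s : ZMod Q, α s * β (T - s) * ind (Ψ s (T - s)) with hD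
  have e1 : ∑ s : ZMod Q, ∑ t : ZMod Q, α s * β t * ind (Ψ s t) = ∑ T : ZMod Q, D T := by
    simp only [hD]
    rw [sum_comm (s := (univ : Finset (ZMod Q))) (t := (univ : Finset (ZMod Q)))
      (f := fun T s => α s * β (T - s) * ind (Ψ s (T - s)))]
    refine sum_congr rfl fun s _ => ?_
    exact ((Equiv.subRight s).sum_comp (fun t => α s * β t * ind (Ψ s t))).symm
  have e2 : ∑ T : ZMod Q, D (T + 1) = ∑ T : ZMod Q, D T :=
    Equiv.sum_comp (Equiv.addRight (1 : ZMod Q)) D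
  have e3 : ∀ T, D T = ∑ v : ZMod Q, β v * (α (T - v) * ind (Ψ (T - v) v)) := by
    intro T
    simp only [hD]
    rw [← (Equiv.subLeft T).sum_comp (fun s => α s * β (T - s) * ind (Ψ s (T - s)))]
    refine sum_congr rfl fun v _ => ?_
    simp only [Equiv.subLeft_apply, sub_sub_cancel]
    ring
  have e4 : ∀ T, D T + D (T + 1) ≤ c := by
    intro T
    by_cases hV : VV Ψ T
    · have hH : ¬ HH Ψ T := fun hH => h T ⟨hV, hH⟩
      rw [e3, e3, ← sum_add_distrib]
      calc ∑ v : ZMod Q, (β v * (α (T - v) * ind (Ψ (T - v) v)) +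
              β v * (α (T + 1 - v) * ind (Ψ (T + 1 - v) v))) ≤ ∑ v : ZMod Q, β v * c := by
            refine sum_le_sum fun v _ => ?_
            rw [← mul_add]
            refine mul_le_mul_of_nonneg_left ?_ (hβ0 v)
            refine ind_add_le ?_ _ _ _ (hα _) (hα _) hc
            rintro ⟨h1, h2⟩
            refine hH ⟨v, h1, ?_⟩
            have : T + 1 - v = T - v + 1 := by ring
            rwa [this] at h2
        _ = c := by rw [← Finset.sum_mul, hβ1, one_mul]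
    · simp only [hD]
      rw [← sum_add_distrib]
      calc ∑ s : ZMod Q, (α s * β (T - s) * ind (Ψ s (T - s)) +
              α s * β (T + 1 - s) * ind (Ψ s (T + 1 - s))) ≤ ∑ s : ZMod Q, α s * c := by
            refine sum_le_sum fun s _ => ?_
            rw [mul_assoc, mul_assoc, ← mul_add]
            refine mul_le_mul_of_nonneg_left ?_ (hα0 s)
            refine ind_add_le ?_ _ _ _ (hβ _) (hβ _) hc
            rintro ⟨h1, h2⟩
            refine hV ⟨s, h1, ?_⟩
            have : T + 1 - s = T - s + 1 := by ring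
            rwa [this] at h2
        _ = c := by rw [← Finset.sum_mul, hα1, one_mul]
  calc 2 * ∑ s : ZMod Q, ∑ t : ZMod Q, α s * β t * ind (Ψ s t)
      = ∑ T : ZMod Q, (D T + D (T + 1)) := by rw [sum_add_distrib, e2, e1]; ring
    _ ≤ ∑ _T : ZMod Q, c := sum_le_sum fun T _ => e4 T
    _ = Q * c := by rw [sum_const, card_univ, ZMod.card, nsmul_eq_mul]

end

/-- the systems which depend only on the numbers of ones of `y` in `S` below and above the
direction, modulo `Q` -/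
def LevelZero (Q : ℕ) {ι : Type} [LinearOrder ι] (F : ι → Finset ι → Prop) (S : Finset ι) : Prop :=
  ∃ Ψ : ι → ZMod Q → ZMod Q → Prop,
    ∀ i ∈ S, ∀ y, F i y ↔ Ψ i ((y ∩ lo S i).card : ℕ) ((y ∩ hi S i).card : ℕ)

theorem disjoint_lo_hi {ι : Type} [LinearOrder ι] (S : Finset ι) (i : ι) :
    Disjoint (lo S i) (hi S i) := by
  rw [disjoint_left]
  intro a h1 h2
  exact lt_asymm (mem_lo.mp h1).2 (mem_hi.mp h2).2

theorem level_zero (Q : ℕ) [NeZero Q] (ε : ℝ) (hε : 0 < ε) :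
    ∃ n₀ : ℕ, ∀ (ι : Type) [Fintype ι] [LinearOrder ι] (S : Finset ι) (F : ι → Finset ι → Prop),
      n₀ ≤ S.card → LevelZero Q F S → C4Free F S →
        tot F S ≤ (1 / 2 + ε) * S.card * 2 ^ Fintype.card ι := by
  have hQ : (0 : ℝ) < Q := Nat.cast_pos.mpr (NeZero.pos Q)
  obtain ⟨m₀, hm₀⟩ := uu_limit Q (ε / Q) (by positivity)
  obtain ⟨n₀, hn₀⟩ := exists_nat_gt (2 * (2 * m₀ + Q * (3 * Q + 1)) / ε)
  refine ⟨n₀, fun ι _ _ S F hS hF hfree => ?_⟩
  classical
  obtain ⟨Ψ, hΨ⟩ := hF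
  set B : Finset ι := (univ : Finset (ZMod Q)).biUnion
      (fun T => S.filter (fun i => VV (Ψ i) T ∧ HH (Ψ i) T)) ∪
      (S.filter (fun i => (lo S i).card < m₀) ∪ S.filter (fun i => (hi S i).card < m₀)) with hB
  have hBS : B ⊆ S := by
    intro a ha
    rw [hB, mem_union, mem_union, mem_biUnion] at ha
    rcases ha with ⟨T, _, ha⟩ | ha | ha
    · exact (mem_filter.mp ha).1
    · exact (mem_filter.mp ha).1
    · exact (mem_filter.mp ha).1
  have hBc : B.card ≤ 2 * m₀ + Q * (3 * Q + 1) := by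
    rw [hB]
    refine (card_union_le _ _).trans ?_
    have h1 : ((univ : Finset (ZMod Q)).biUnion
      (fun T => S.filter (fun i => VV (Ψ i) T ∧ HH (Ψ i) T))).card ≤ Q * (3 * Q + 1) := by
      refine (card_biUnion_le_card_mul _ _ (3 * Q + 1) fun T _ => ?_).trans ?_
      · exact card_exceptional F S Ψ hΨ hfree T
      · rw [card_univ, ZMod.card]
    have h2 := (card_union_le (S.filter (fun i => (lo S i).card < m₀))
      (S.filter (fun i => (hi S i).card < m₀)))
    have h3 := card_small_lo S m₀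
    have h4 := card_small_hi S m₀
    omega
  have hN : (0 : ℝ) < 2 ^ Fintype.card ι := by positivity
  have hgood : ∀ i ∈ S \ B, ∑ y : Finset ι, ind (F i y) ≤ (1 / 2 + ε / 2) * 2 ^ Fintype.card ι := by
    intro i hi'
    obtain ⟨hiS, hiB⟩ := mem_sdiff.mp hi'
    have h1 : m₀ ≤ (lo S i).card := by
      by_contra hcon
      apply hiB
      rw [hB, mem_union, mem_union]
      exact Or.inr (Or.inl (mem_filter.mpr ⟨hiS, not_le.mp hcon⟩))
    have h2 : m₀ ≤ (hi S i).card := by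
      by_contra hcon
      apply hiB
      rw [hB, mem_union, mem_union]
      exact Or.inr (Or.inr (mem_filter.mpr ⟨hiS, not_le.mp hcon⟩))
    have h3 : ∀ T, ¬ (VV (Ψ i) T ∧ HH (Ψ i) T) := by
      intro T hT
      apply hiB
      rw [hB, mem_union, mem_biUnion]
      exact Or.inl ⟨T, mem_univ _, mem_filter.mpr ⟨hiS, hT⟩⟩
    have h4 : ∑ y : Finset ι, ind (F i y) =
        ∑ y : Finset ι, ind (Ψ i ((y ∩ lo S i).card : ℕ) ((y ∩ hi S i).card : ℕ)) :=
      sum_congr rfl fun y _ => by rw [propext (hΨ i hiS y)]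
    rw [h4, sum_psi _ _ (disjoint_lo_hi S i)]
    have h5 := half (uu Q (lo S i).card) (uu Q (hi S i).card) (Ψ i) (1 / Q + ε / Q)
      (uu_nonneg _) (uu_nonneg _) (sum_uu _) (sum_uu _) (hm₀ _ h1) (hm₀ _ h2) h3
    have h6 : (Q : ℝ) * (1 / Q + ε / Q) = 1 + ε := by field_simp
    rw [h6] at h5
    rw [mul_comm (1 / 2 + ε / 2 : ℝ)]
    refine mul_le_mul_of_nonneg_left ?_ hN.le
    linarith
  have hsum : tot F S = ∑ i ∈ S \ B, ∑ y : Finset ι, ind (F i y) + tot F B := by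
    unfold tot
    rw [sum_sdiff hBS]
  have h1 : ∑ i ∈ S \ B, ∑ y : Finset ι, ind (F i y) ≤
      S.card * ((1 / 2 + ε / 2) * 2 ^ Fintype.card ι) := by
    calc ∑ i ∈ S \ B, ∑ y : Finset ι, ind (F i y)
        ≤ ∑ _i ∈ S \ B, (1 / 2 + ε / 2) * 2 ^ Fintype.card ι := sum_le_sum hgood
      _ = (S \ B).card * ((1 / 2 + ε / 2) * 2 ^ Fintype.card ι) := by
          rw [sum_const, nsmul_eq_mul]
      _ ≤ _ := by
          refine mul_le_mul_of_nonneg_right ?_ (by positivity)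
          exact_mod_cast card_le_card sdiff_subset
  have h2 := tot_le F B
  have h3 : (B.card : ℝ) ≤ ε / 2 * S.card := by
    have h4 : (B.card : ℝ) ≤ 2 * m₀ + Q * (3 * Q + 1) := by exact_mod_cast hBc
    have h5 : (n₀ : ℝ) ≤ S.card := by exact_mod_cast hS
    have h6 : 2 * (2 * m₀ + Q * (3 * Q + 1)) / ε < S.card := hn₀.trans_le h5
    rw [div_lt_iff₀ hε] at h6
    linarith
  have h4 : (B.card : ℝ) * 2 ^ Fintype.card ι ≤ ε / 2 * S.card * 2 ^ Fintype.card ι :=
    mul_le_mul_of_nonneg_right h3 hN.le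
  rw [hsum]
  calc _ ≤ S.card * ((1 / 2 + ε / 2) * 2 ^ Fintype.card ι) +
        ε / 2 * S.card * 2 ^ Fintype.card ι := add_le_add h1 (h2.trans h4)
    _ = (1 / 2 + ε) * S.card * 2 ^ Fintype.card ι := by ring

end Pool.Agent.H.MP_4093f8_co.Poly
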