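import Pool.Agent.H.MP_4093f8_co.Poly.Base

/-! # The size of a random subset modulo `Q` -/

namespace Pool.Agent.H.MP_4093f8_co.Poly

open Finset

/-- the probability that the size of a random subset of an `m`-set is `t` modulo `Q` -/
noncomputable def uu (Q : ℕ) : ℕ → ZMod Q → ℝ
  | 0, t => ind (t = 0)
  | m + 1, t => (uu Q m t + uu Q m (t - 1)) / 2

variable {Q : ℕ}

theorem uu_nonneg (m : ℕ) : ∀ t : ZMod Q, 0 ≤ uu Q m t := by
  induction m with
  | zero => intro t; exact ind_nonneg _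
  | succ m ih =>
    intro t
    simp only [uu]
    have h1 := ih t
    have h2 := ih (t - 1)
    positivity

theorem sum_powerset_card {ι : Type} [DecidableEq ι] (L : Finset ι) :
    ∀ t : ZMod Q, ∑ w ∈ L.powerset, ind ((w.card : ZMod Q) = t) = 2 ^ L.card * uu Q L.card t := by
  induction L using Finset.induction_on with
  | empty =>
    intro t
    simp only [powerset_empty, sum_singleton, card_empty, Nat.cast_zero, pow_zero, one_mul, uu]
    congr 1
    exact propext ⟨fun h => h.symm, fun h => h.symm⟩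
  | insert a L ha ih =>
    intro t
    rw [sum_powerset_insert ha, card_insert_of_notMem ha, ih t]
    have h1 : ∑ w ∈ L.powerset, ind (((insert a w).card : ZMod Q) = t) =
        ∑ w ∈ L.powerset, ind ((w.card : ZMod Q) = t - 1) := by
      refine sum_congr rfl fun w hw => ?_
      have h2 : a ∉ w := fun h => ha (mem_powerset.mp hw h)
      rw [card_insert_of_notMem h2]
      congr 1
      push_cast
      exact propext ⟨fun h => by rw [← h]; ring, fun h => by rw [h]; ring⟩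
    rw [h1, ih (t - 1)]
    simp only [uu]
    ring

theorem sum_uu [NeZero Q] (m : ℕ) : ∑ t : ZMod Q, uu Q m t = 1 := by
  induction m with
  | zero =>
    simp only [uu]
    rw [sum_eq_single (0 : ZMod Q)]
    · exact ind_true rfl
    · intro b _ hb; exact ind_false hb
    · intro h; exact absurd (mem_univ _) h
  | succ m ih =>
    simp only [uu]
    rw [← sum_div, sum_add_distrib, ih]
    have h1 : ∑ t : ZMod Q, uu Q m (t - 1) = ∑ t : ZMod Q, uu Q m t :=
      (Equiv.subRight (1 : ZMod Q)).sum_comp (fun t => uu Q m t)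
    rw [h1, ih]
    norm_num

theorem uu_le_of_le {m : ℕ} {b : ℝ} (h : ∀ t : ZMod Q, uu Q m t ≤ b) (r : ℕ) :
    ∀ t : ZMod Q, uu Q (m + r) t ≤ b := by
  induction r with
  | zero => exact h
  | succ r ih =>
    intro t
    rw [← add_assoc]
    simp only [uu]
    have h1 := ih t
    have h2 := ih (t - 1)
    linarith

theorem uu_contract {m : ℕ} {b : ℝ} (h : ∀ t : ZMod Q, uu Q m t ≤ b) (r : ℕ) :
    ∀ j ≤ r, ∀ t : ZMod Q, uu Q (m + r) t ≤ b - (b - uu Q m (t - (j : ℕ))) / 2 ^ r := by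
  induction r with
  | zero =>
    intro j hj t
    obtain rfl : j = 0 := by omega
    simp
  | succ r ih =>
    intro j hj t
    rw [← add_assoc]
    simp only [uu]
    rcases Nat.lt_or_ge r j with hjr | hjr
    · obtain rfl : j = r + 1 := by omega
      have h1 := uu_le_of_le h r t
      have h2 := ih r le_rfl (t - 1)
      have h3 : t - 1 - ((r : ℕ) : ZMod Q) = t - ((r + 1 : ℕ) : ZMod Q) := by push_cast; ring
      rw [h3] at h2
      rw [pow_succ]
      have h4 : (b - uu Q m (t - ((r + 1 : ℕ) : ZMod Q))) / (2 ^ r * 2) =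
        (b - uu Q m (t - ((r + 1 : ℕ) : ZMod Q))) / 2 ^ r / 2 := by rw [div_div]
      rw [h4]
      linarith
    · have h1 := uu_le_of_le h r (t - 1)
      have h2 := ih j hjr t
      rw [pow_succ]
      have h4 : (b - uu Q m (t - ((j : ℕ) : ZMod Q))) / (2 ^ r * 2) =
        (b - uu Q m (t - ((j : ℕ) : ZMod Q))) / 2 ^ r / 2 := by rw [div_div]
      rw [h4]
      linarith

theorem uu_period [NeZero Q] {m : ℕ} {b : ℝ} (h : ∀ t : ZMod Q, uu Q m t ≤ 1 / Q + b) :
    ∀ t : ZMod Q, uu Q (m + Q) t ≤ 1 / Q + (1 - 1 / 2 ^ Q) * b := by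
  intro t
  obtain ⟨t₀, ht₀⟩ : ∃ t₀ : ZMod Q, uu Q m t₀ ≤ 1 / Q := by
    by_contra hcon
    push Not at hcon
    have h1 : ∑ _t : ZMod Q, (1 / Q : ℝ) < ∑ t : ZMod Q, uu Q m t :=
      sum_lt_sum_of_nonempty univ_nonempty (fun t _ => hcon t)
    rw [sum_uu, sum_const, card_univ, ZMod.card, nsmul_eq_mul] at h1
    have h2 : (Q : ℝ) ≠ 0 := Nat.cast_ne_zero.mpr (NeZero.ne Q)
    rw [mul_one_div_cancel h2] at h1
    exact lt_irrefl _ h1
  have h1 := uu_contract h Q ((t - t₀).val) (ZMod.val_lt _).le t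
  have h2 : t - (((t - t₀).val : ℕ) : ZMod Q) = t₀ := by
    rw [ZMod.natCast_zmod_val]; ring
  rw [h2] at h1
  have h3 : (0 : ℝ) < 1 / 2 ^ Q := by positivity
  have h4 : (1 / (Q : ℝ) + b - uu Q m t₀) / 2 ^ Q = (1 / 2 ^ Q) * (1 / Q + b - uu Q m t₀) := by
    ring
  rw [h4] at h1
  nlinarith

theorem uu_limit (Q : ℕ) [NeZero Q] (η : ℝ) (hη : 0 < η) :
    ∃ m₀ : ℕ, ∀ m ≥ m₀, ∀ t : ZMod Q, uu Q m t ≤ 1 / Q + η := by
  have h0 : ∀ k : ℕ, ∀ t : ZMod Q, uu Q (k * Q) t ≤ 1 / Q + (1 - 1 / 2 ^ Q) ^ k * 1 := by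
    intro k
    induction k with
    | zero =>
      intro t
      rw [Nat.zero_mul]
      simp only [uu, pow_zero, one_mul]
      have h1 : (0 : ℝ) ≤ 1 / Q := by positivity
      have := ind_le_one (t = 0)
      linarith
    | succ k ih =>
      intro t
      have h1 := uu_period ih t
      rw [Nat.succ_mul]
      calc uu Q (k * Q + Q) t ≤ _ := h1
        _ = _ := by ring
  have h1 : (1 - 1 / 2 ^ Q : ℝ) < 1 := by
    have : (0 : ℝ) < 1 / 2 ^ Q := by positivity
    linarith
  have h2 : (0 : ℝ) ≤ 1 - 1 / 2 ^ Q := by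
    have h3 : (1 : ℝ) ≤ 2 ^ Q := one_le_pow₀ (by norm_num)
    have h4 : (1 : ℝ) / 2 ^ Q ≤ 1 := by
      rw [div_le_one (by positivity)]; exact h3
    linarith
  obtain ⟨k, hk⟩ := exists_pow_lt_of_lt_one hη h1
  refine ⟨k * Q, fun m hm t => ?_⟩
  obtain ⟨r, rfl⟩ := Nat.exists_eq_add_of_le hm
  refine uu_le_of_le (fun t => ?_) r t
  have := h0 k t
  linarith

end Pool.Agent.H.MP_4093f8_co.Poly
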