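import Mathlib

/-! # Ramsey's theorem for sets of a fixed size, inside finite sets of a linear order -/

namespace Pool.Agent.H.MP_4093f8_co.Poly

open Finset

/-- every large finite set has a subset of size `m` on which the colour of the `r`-subsets is
constant -/
def RamseyFor (r : ℕ) (κ : Type) : Prop :=
  ∀ m : ℕ, ∃ R : ℕ, ∀ (ι : Type) [LinearOrder ι] (S : Finset ι), R ≤ S.card →
    ∀ χ : Finset ι → κ, ∃ M ⊆ S, M.card = m ∧ ∃ γ : κ, ∀ W ⊆ M, W.card = r → χ W = γ

theorem ramsey_endhom (r : ℕ) (κ : Type) [Nonempty κ] (h : RamseyFor r κ) (t : ℕ) :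
    ∃ R : ℕ, ∀ (ι : Type) [LinearOrder ι] (S : Finset ι), R ≤ S.card → ∀ χ : Finset ι → κ,
      ∃ A ⊆ S, A.card = t ∧ ∃ col : ι → κ, ∀ W ⊆ A, W.card = r + 1 → ∀ a ∈ W,
        (∀ b ∈ W, a ≤ b) → χ W = col a := by
  induction t with
  | zero =>
    refine ⟨0, fun ι _ S _ χ => ⟨∅, empty_subset _, rfl, fun _ => Classical.arbitrary κ, ?_⟩⟩
    intro W hW hc
    rw [subset_empty.mp hW] at hc
    simp at hc
  | succ t ih =>
    obtain ⟨R, hR⟩ := ih
    obtain ⟨R1, hR1⟩ := h R
    refine ⟨R1 + 1, fun ι _ S hS χ => ?_⟩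
    have hne : S.Nonempty := card_pos.mp (by omega)
    set a := S.min' hne with ha
    have haS : a ∈ S := min'_mem _ _
    have h1 : R1 ≤ (S.erase a).card := by rw [card_erase_of_mem haS]; omega
    obtain ⟨M, hMS, hMc, γ, hγ⟩ := hR1 ι (S.erase a) h1 (fun W => χ (insert a W))
    obtain ⟨A, hAM, hAc, col, hcol⟩ := hR ι M hMc.ge χ
    have hlt : ∀ b ∈ A, a < b := by
      intro b hb
      have := hMS (hAM hb)
      exact lt_of_le_of_ne (min'_le _ _ (mem_of_mem_erase this)) (ne_of_mem_erase this).symm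
    have haA : a ∉ A := fun h' => lt_irrefl _ (hlt a h')
    refine ⟨insert a A, ?_, by rw [card_insert_of_notMem haA, hAc],
      Function.update col a γ, ?_⟩
    · intro b hb
      rcases mem_insert.mp hb with rfl | hb
      · exact haS
      · exact mem_of_mem_erase (hMS (hAM hb))
    · intro W hW hc b hb hmin
      by_cases hab : a ∈ W
      · have : b = a := by
          have h2 : b ≤ a := hmin a hab
          rcases mem_insert.mp (hW hb) with h3 | h3
          · exact h3
          · exact absurd h2 (not_le.mpr (hlt b h3))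
        rw [this, Function.update_self]
        have h3 : W.erase a ⊆ M := by
          intro c hc'
          rcases mem_insert.mp (hW (mem_of_mem_erase hc')) with h4 | h4
          · exact absurd h4 (ne_of_mem_erase hc')
          · exact hAM h4
        have h4 := hγ (W.erase a) h3 (by rw [card_erase_of_mem hab, hc]; rfl)
        rwa [insert_erase hab] at h4
      · have h3 : W ⊆ A := by
          intro c hc'
          rcases mem_insert.mp (hW hc') with h4 | h4
          · exact absurd (h4 ▸ hc') hab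
          · exact h4
        have hba : b ≠ a := fun h4 => hab (h4 ▸ hb)
        rw [Function.update_of_ne hba]
        exact hcol W h3 hc b hb hmin

theorem ramsey_step (r : ℕ) (κ : Type) [Finite κ] [Nonempty κ] (h : RamseyFor r κ) :
    RamseyFor (r + 1) κ := by
  intro m
  classical
  have := Fintype.ofFinite κ
  obtain ⟨R, hR⟩ := ramsey_endhom r κ h (Fintype.card κ * m)
  refine ⟨R, fun ι _ S hS χ => ?_⟩
  obtain ⟨A, hAS, hAc, col, hcol⟩ := hR ι S hS χ
  obtain ⟨γ, hγ⟩ : ∃ γ : κ, m ≤ (A.filter (fun a => col a = γ)).card := by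
    by_contra hcon
    push Not at hcon
    have h1 : A.card = ∑ γ : κ, (A.filter (fun a => col a = γ)).card :=
      card_eq_sum_card_fiberwise (fun a _ => mem_univ (col a))
    have h2 : ∑ γ : κ, (A.filter (fun a => col a = γ)).card < ∑ _γ : κ, m :=
      sum_lt_sum_of_nonempty univ_nonempty (fun γ _ => hcon γ)
    rw [sum_const, smul_eq_mul, card_univ] at h2
    omega
  obtain ⟨M, hM, hMc⟩ := exists_subset_card_eq hγ
  refine ⟨M, fun a ha => hAS (mem_filter.mp (hM ha)).1, hMc, γ, ?_⟩
  intro W hW hc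
  have hne : W.Nonempty := card_pos.mp (by omega)
  have h1 : W.min' hne ∈ W := min'_mem _ _
  rw [hcol W (fun a ha => (mem_filter.mp (hM (hW ha))).1) hc _ h1 (fun b hb => min'_le _ _ hb)]
  exact (mem_filter.mp (hM (hW h1))).2

theorem ramsey (r : ℕ) (κ : Type) [Finite κ] : RamseyFor r κ := by
  by_cases hκ : Nonempty κ
  · induction r with
    | zero =>
      intro m
      refine ⟨m, fun ι _ S hS χ => ?_⟩
      obtain ⟨M, hM, hMc⟩ := exists_subset_card_eq hS
      refine ⟨M, hM, hMc, χ ∅, ?_⟩
      intro W _ hc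
      rw [card_eq_zero.mp hc]
    | succ r ih => exact ramsey_step r κ ih
  · intro m
    exact ⟨0, fun ι _ S _ χ => absurd ⟨χ ∅⟩ hκ⟩

end Pool.Agent.H.MP_4093f8_co.Poly
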