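import Pool.Agent.H.MP_4093f8_co.Poly.Level
import Pool.Agent.H.MP_4093f8_co.Poly.Ramsey

/-! # From degree `k + 1` to degree `k` -/

namespace Pool.Agent.H.MP_4093f8_co.Poly

open Finset

section

variable {A : Type} [AddCommGroup A]

theorem sum_powerset_union {ι : Type} [DecidableEq ι] (X Y : Finset ι) (h : Disjoint X Y)
    (f : Finset ι → A) :
    ∑ T ∈ (X ∪ Y).powerset, f T = ∑ T₁ ∈ X.powerset, ∑ T₂ ∈ Y.powerset, f (T₁ ∪ T₂) := by
  induction Y using Finset.induction_on generalizing f with
  | empty => simp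
  | insert a Y ha ih =>
    have h1 : a ∉ X := fun h2 => (disjoint_left.mp h h2) (mem_insert_self a Y)
    have h2 : Disjoint X Y := disjoint_of_subset_right (subset_insert a Y) h
    have h3 : a ∉ X ∪ Y := by
      rw [mem_union]; rintro (h4 | h4)
      · exact h1 h4
      · exact ha h4
    rw [union_insert, sum_powerset_insert h3, ih h2 f, ih h2 (fun T => f (insert a T)),
      ← sum_add_distrib]
    refine sum_congr rfl fun T₁ _ => ?_
    rw [sum_powerset_insert ha]
    congr 1
    refine sum_congr rfl fun T₂ _ => ?_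
    rw [union_insert]

/-- the value at the set `P` of the polynomial of degree less than `k` with coefficients `c` -/
def polyval {ι : Type} (k : ℕ) (c : Finset ι → A) (P : Finset ι) : A :=
  ∑ T ∈ P.powerset, if T.card < k then c T else 0

theorem polyval_union {ι : Type} [DecidableEq ι] (k : ℕ) (c : Finset ι → A) (X Y : Finset ι)
    (h : Disjoint X Y) :
    polyval k c (X ∪ Y) = polyval k (fun T₁ => ∑ T₂ ∈ Y.powerset,
      if (T₁ ∪ T₂).card < k then c (T₁ ∪ T₂) else 0) X := by
  unfold polyval
  rw [sum_powerset_union X Y h]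
  refine sum_congr rfl fun T₁ hT₁ => ?_
  split_ifs with h1
  · rfl
  · refine sum_eq_zero fun T₂ _ => ?_
    rw [if_neg]
    intro h2
    exact h1 (lt_of_le_of_lt (card_le_card subset_union_left) h2)

theorem coeff_top {ι : Type} [DecidableEq ι] (k : ℕ) (c : Finset ι → A) (Y T₁ : Finset ι)
    (h : Disjoint T₁ Y) (hc : T₁.card = k) :
    (∑ T₂ ∈ Y.powerset, if (T₁ ∪ T₂).card < k + 1 then c (T₁ ∪ T₂) else 0) = c T₁ := by
  rw [sum_eq_single ∅]
  · rw [union_empty, if_pos (by omega)]
  · intro T₂ hT₂ hne
    rw [if_neg]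
    rw [card_union_of_disjoint (disjoint_of_subset_right (mem_powerset.mp hT₂) h)]
    have : 0 < T₂.card := card_pos.mpr (nonempty_iff_ne_empty.mpr hne)
    omega
  · intro h1
    exact absurd (empty_mem_powerset Y) h1

/-- the contribution of the homogeneous coefficients of degree `k` -/
def top (k : ℕ) (γ : ℕ → A) (a b : ℕ) : A :=
  ∑ p ∈ range (k + 1), ∑ q ∈ range (k + 1), (a.choose p * b.choose q) • (if p + q = k then γ p else 0)

theorem sum_card_range {ι : Type} [DecidableEq ι] (k : ℕ) (f : ℕ → A) (hf : ∀ p, k < p → f p = 0)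
    (L : Finset ι) : ∑ T ∈ L.powerset, f T.card = ∑ p ∈ range (k + 1), (L.card.choose p) • f p := by
  rw [sum_powerset_apply_card]
  rcases le_total L.card k with h | h
  · refine sum_subset (range_subset_range.mpr (by omega)) fun p _ hp => ?_
    rw [Nat.choose_eq_zero_of_lt (by simpa using hp), zero_smul]
  · symm
    refine sum_subset (range_subset_range.mpr (by omega)) fun p _ hp => ?_
    rw [hf p (by simpa using hp), smul_zero]

theorem top_eq {ι : Type} [DecidableEq ι] (k : ℕ) (γ : ℕ → A) (L G : Finset ι)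
    (h : Disjoint L G) :
    (∑ T ∈ (L ∪ G).powerset, if T.card = k then γ (T ∩ L).card else 0) = top k γ L.card G.card := by
  rw [sum_powerset_union L G h]
  have h1 : ∀ T₁ ∈ L.powerset, (∑ T₂ ∈ G.powerset,
      if (T₁ ∪ T₂).card = k then γ ((T₁ ∪ T₂) ∩ L).card else 0) =
      ∑ q ∈ range (k + 1), (G.card.choose q) • (if T₁.card + q = k then γ T₁.card else 0) := by
    intro T₁ hT₁
    rw [← sum_card_range k (fun q => if T₁.card + q = k then γ T₁.card else 0)
      (fun p hp => by rw [if_neg (by omega)]) G]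
    refine sum_congr rfl fun T₂ hT₂ => ?_
    have h2 : Disjoint T₁ T₂ :=
      disjoint_of_subset_left (mem_powerset.mp hT₁)
        (disjoint_of_subset_right (mem_powerset.mp hT₂) h)
    have h3 : (T₁ ∪ T₂) ∩ L = T₁ := by
      ext a
      rw [mem_inter, mem_union]
      constructor
      · rintro ⟨h4 | h4, h5⟩
        · exact h4
        · exact absurd (mem_powerset.mp hT₂ h4) (disjoint_left.mp h h5)
      · intro h4
        exact ⟨Or.inl h4, mem_powerset.mp hT₁ h4⟩
    rw [h3, card_union_of_disjoint h2]
  rw [sum_congr rfl h1, sum_card_range k (fun p => ∑ q ∈ range (k + 1),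
    (G.card.choose q) • (if p + q = k then γ p else 0))]
  · unfold top
    refine sum_congr rfl fun p _ => ?_
    rw [smul_sum]
    refine sum_congr rfl fun q _ => ?_
    rw [smul_smul]
  · intro p hp
    refine sum_eq_zero fun q _ => ?_
    rw [if_neg (by omega), smul_zero]

end

/-! ## Periodicity of binomial coefficients -/

theorem descFactorial_cast (n p : ℕ) :
    ((n.descFactorial p : ℕ) : ℤ) = ∏ i ∈ range p, ((n : ℤ) - i) := by
  induction p with
  | zero => simp
  | succ p ih =>
    rw [Nat.descFactorial_succ, prod_range_succ, ← ih]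
    push_cast
    rcases Nat.lt_or_ge n p with h | h
    · rw [Nat.descFactorial_eq_zero_iff_lt.mpr h]; simp
    · rw [Nat.cast_sub h]; ring

theorem choose_modEq (e k p : ℕ) (hp : p ≤ k) {a b : ℕ} (h : a ≡ b [MOD e * k.factorial]) :
    a.choose p ≡ b.choose p [MOD e] := by
  have h0 : a ≡ b [MOD e * p.factorial] :=
    h.of_dvd (Nat.mul_dvd_mul_left e (Nat.factorial_dvd_factorial hp))
  have h1 : (a.descFactorial p : ℤ) ≡ b.descFactorial p [ZMOD (e * p.factorial : ℕ)] := by
    rw [descFactorial_cast, descFactorial_cast]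
    have h2 : (a : ℤ) ≡ b [ZMOD (e * p.factorial : ℕ)] := (Int.natCast_modEq_iff).mpr h0
    exact Int.ModEq.prod fun i _ => h2.sub_right _
  rw [Int.natCast_modEq_iff] at h1
  rw [Nat.descFactorial_eq_factorial_mul_choose, Nat.descFactorial_eq_factorial_mul_choose,
    mul_comm e] at h1
  exact Nat.ModEq.mul_left_cancel' (Nat.factorial_ne_zero p) h1

theorem top_congr {A : Type} [AddCommGroup A] [Fintype A] (k : ℕ) (γ : ℕ → A) {a a' b b' : ℕ}
    (ha : a ≡ a' [MOD Fintype.card A * k.factorial])
    (hb : b ≡ b' [MOD Fintype.card A * k.factorial]) : top k γ a b = top k γ a' b' := by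
  unfold top
  refine sum_congr rfl fun p hp => sum_congr rfl fun q hq => ?_
  have h1 := choose_modEq _ k p (by simpa [Nat.lt_succ_iff] using hp) ha
  have h2 := choose_modEq _ k q (by simpa [Nat.lt_succ_iff] using hq) hb
  have h3 := h1.mul h2
  generalize (if p + q = k then γ p else 0) = g
  rw [← Nat.mod_add_div (a.choose p * b.choose q) (Fintype.card A),
    ← Nat.mod_add_div (a'.choose p * b'.choose q) (Fintype.card A), add_smul, add_smul,
    mul_comm (Fintype.card A), mul_comm (Fintype.card A), mul_smul, mul_smul, card_nsmul_eq_zero,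
    smul_zero, smul_zero, h3]

end Pool.Agent.H.MP_4093f8_co.Poly
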