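import Pool.Agent.H.MP_4093f8_co.Poly.Mixing

/-! # Systems depending only on the numbers of ones below and above the direction, modulo `Q` -/

namespace Pool.Agent.H.MP_4093f8_co.Poly

open Finset

section

variable {ι : Type} [LinearOrder ι]

/-- the elements of `S` below `i` -/
def lo (S : Finset ι) (i : ι) : Finset ι := S.filter (fun a => a < i)
/-- the elements of `S` above `i` -/
def hi (S : Finset ι) (i : ι) : Finset ι := S.filter (fun a => i < a)

theorem mem_lo {S : Finset ι} {i a : ι} : a ∈ lo S i ↔ a ∈ S ∧ a < i := by simp [lo]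
theorem mem_hi {S : Finset ι} {i a : ι} : a ∈ hi S i ↔ a ∈ S ∧ i < a := by simp [hi]

theorem card_lo_hi {S : Finset ι} {i : ι} (h : i ∈ S) :
    (lo S i).card + (hi S i).card + 1 = S.card := by
  have h1 : Disjoint (lo S i) (hi S i) := by
    rw [disjoint_left]
    intro a h1 h2
    exact lt_asymm (mem_lo.mp h1).2 (mem_hi.mp h2).2
  have h2 : lo S i ∪ hi S i = S.erase i := by
    ext a
    rw [mem_union, mem_lo, mem_hi, mem_erase]
    constructor
    · rintro (⟨h3, h4⟩ | ⟨h3, h4⟩)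
      · exact ⟨h4.ne, h3⟩
      · exact ⟨h4.ne', h3⟩
    · rintro ⟨h3, h4⟩
      rcases lt_or_gt_of_ne h3 with h5 | h5
      · exact Or.inl ⟨h4, h5⟩
      · exact Or.inr ⟨h4, h5⟩
  rw [← card_union_of_disjoint h1, h2, card_erase_of_mem h]
  have : 0 < S.card := card_pos.mpr ⟨i, h⟩
  omega

theorem exists_rank (E : Finset ι) (a : ℕ) (h : a < E.card) : ∃ i ∈ E, (lo E i).card = a := by
  let e := E.orderEmbOfFin rfl
  refine ⟨e ⟨a, h⟩, orderEmbOfFin_mem E rfl _, ?_⟩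
  have h1 : lo E (e ⟨a, h⟩) = (Finset.Iio (⟨a, h⟩ : Fin E.card)).map e.toEmbedding := by
    ext x
    rw [mem_lo, mem_map]
    constructor
    · rintro ⟨h2, h3⟩
      have h4 : x ∈ Set.range e := by
        rw [range_orderEmbOfFin]; exact h2
      obtain ⟨y, rfl⟩ := h4
      exact ⟨y, mem_Iio.mpr (e.lt_iff_lt.mp h3), rfl⟩
    · rintro ⟨y, h2, rfl⟩
      exact ⟨orderEmbOfFin_mem E rfl _, e.lt_iff_lt.mpr (mem_Iio.mp h2)⟩
  rw [h1, card_map, Fin.card_Iio]

theorem card_small_lo (S : Finset ι) (m : ℕ) :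
    (S.filter (fun i => (lo S i).card < m)).card ≤ m := by
  by_contra hcon
  push Not at hcon
  obtain ⟨i, hi', hc⟩ := exists_rank _ m hcon
  have h1 : (lo (S.filter (fun i => (lo S i).card < m)) i) ⊆ lo S i := by
    intro a ha
    exact mem_lo.mpr ⟨(mem_filter.mp (mem_lo.mp ha).1).1, (mem_lo.mp ha).2⟩
  have h2 := card_le_card h1
  have h3 := (mem_filter.mp hi').2
  omega

theorem card_small_hi (S : Finset ι) (m : ℕ) :
    (S.filter (fun i => (hi S i).card < m)).card ≤ m := by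
  by_contra hcon
  push Not at hcon
  set E := S.filter (fun i => (hi S i).card < m) with hE
  obtain ⟨i, hi', hc⟩ := exists_rank E (E.card - 1 - m) (by omega)
  have h1 : hi E i ⊆ hi S i := by
    intro a ha
    exact mem_hi.mpr ⟨(mem_filter.mp (mem_hi.mp ha).1).1, (mem_hi.mp ha).2⟩
  have h2 := card_le_card h1
  have h3 := (mem_filter.mp hi').2
  have h4 := card_lo_hi hi'
  omega

/-- no four-cycle in two directions of `S` -/
def C4Free (F : ι → Finset ι → Prop) (S : Finset ι) : Prop :=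
  ∀ i ∈ S, ∀ j ∈ S, i ≠ j → ∀ y : Finset ι, i ∉ y → j ∉ y →
    ¬ (F i y ∧ F i (insert j y) ∧ F j y ∧ F j (insert i y))

/-- vertical pair -/
def VV {Q : ℕ} (Ψ : ZMod Q → ZMod Q → Prop) (T : ZMod Q) : Prop :=
  ∃ s, Ψ s (T - s) ∧ Ψ s (T - s + 1)
/-- horizontal pair -/
def HH {Q : ℕ} (Ψ : ZMod Q → ZMod Q → Prop) (T : ZMod Q) : Prop :=
  ∃ v, Ψ (T - v) v ∧ Ψ (T - v + 1) v

open Classical in
theorem card_exceptional {Q : ℕ} [NeZero Q] (F : ι → Finset ι → Prop) (S : Finset ι)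
    (Ψ : ι → ZMod Q → ZMod Q → Prop)
    (hF : ∀ i ∈ S, ∀ y, F i y ↔ Ψ i ((y ∩ lo S i).card : ℕ) ((y ∩ hi S i).card : ℕ))
    (hfree : C4Free F S) (T : ZMod Q) :
    (S.filter (fun i => VV (Ψ i) T ∧ HH (Ψ i) T)).card ≤ 3 * Q + 1 := by
  by_contra hcon
  push Not at hcon
  set E := S.filter (fun i => VV (Ψ i) T ∧ HH (Ψ i) T) with hE
  obtain ⟨i, hiE, hic⟩ := exists_rank E Q (by omega)
  have h1 := card_lo_hi hiE
  obtain ⟨j, hjE, hjc⟩ := exists_rank (hi E i) Q (by omega)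
  have h2 := card_lo_hi hjE
  have hij : i < j := (mem_hi.mp hjE).2
  have hiS : i ∈ S := (mem_filter.mp hiE).1
  have hjS : j ∈ S := (mem_filter.mp (mem_hi.mp hjE).1).1
  obtain ⟨s, hs1, hs2⟩ := (mem_filter.mp hiE).2.1
  obtain ⟨v, hv1, hv2⟩ := (mem_filter.mp (mem_hi.mp hjE).1).2.2
  have hA : s.val ≤ (lo S i).card := by
    have h3 : lo E i ⊆ lo S i := fun a ha =>
      mem_lo.mpr ⟨(mem_filter.mp (mem_lo.mp ha).1).1, (mem_lo.mp ha).2⟩
    have h4 := card_le_card h3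
    have h5 := ZMod.val_lt s
    omega
  have hB : (T - s - v).val ≤ ((hi S i).filter (fun a => a < j)).card := by
    have h3 : lo (hi E i) j ⊆ (hi S i).filter (fun a => a < j) := fun a ha => by
      rw [mem_filter, mem_hi]
      have h4 := mem_lo.mp ha
      exact ⟨⟨(mem_filter.mp (mem_hi.mp h4.1).1).1, (mem_hi.mp h4.1).2⟩, h4.2⟩
    have h4 := card_le_card h3
    have h5 := ZMod.val_lt (T - s - v)
    omega
  have hC : v.val ≤ (hi S j).card := by
    have h3 : hi (hi E i) j ⊆ hi S j := fun a ha => by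
      rw [mem_hi]
      have h4 := mem_hi.mp ha
      exact ⟨(mem_filter.mp (mem_hi.mp h4.1).1).1, h4.2⟩
    have h4 := card_le_card h3
    have h5 := ZMod.val_lt v
    omega
  obtain ⟨y1, hy1, hc1⟩ := exists_subset_card_eq hA
  obtain ⟨y2, hy2, hc2⟩ := exists_subset_card_eq hB
  obtain ⟨y3, hy3, hc3⟩ := exists_subset_card_eq hC
  have p1 : ∀ a ∈ y1, a ∈ S ∧ a < i := fun a ha => mem_lo.mp (hy1 ha)
  have p2 : ∀ a ∈ y2, a ∈ S ∧ i < a ∧ a < j := fun a ha => by
    have h3 := mem_filter.mp (hy2 ha)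
    exact ⟨(mem_hi.mp h3.1).1, (mem_hi.mp h3.1).2, h3.2⟩
  have p3 : ∀ a ∈ y3, a ∈ S ∧ j < a := fun a ha => mem_hi.mp (hy3 ha)
  set y := y1 ∪ y2 ∪ y3 with hy
  have hmy : ∀ a, a ∈ y ↔ a ∈ y1 ∨ a ∈ y2 ∨ a ∈ y3 := by
    intro a; rw [hy, mem_union, mem_union, or_assoc]
  have hiy : i ∉ y := by
    rw [hmy]
    rintro (h3 | h3 | h3)
    · exact lt_irrefl _ (p1 _ h3).2
    · exact lt_irrefl _ (p2 _ h3).2.1
    · exact lt_asymm hij (p3 _ h3).2
  have hjy : j ∉ y := by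
    rw [hmy]
    rintro (h3 | h3 | h3)
    · exact lt_asymm hij (p1 _ h3).2
    · exact lt_irrefl _ (p2 _ h3).2.2
    · exact lt_irrefl _ (p3 _ h3).2
  have hd12 : Disjoint y1 y2 := by
    rw [disjoint_left]; intro a h3 h4; exact lt_asymm (p1 _ h3).2 (p2 _ h4).2.1
  have hd23 : Disjoint y2 y3 := by
    rw [disjoint_left]; intro a h3 h4; exact lt_asymm (p2 _ h3).2.2 (p3 _ h4).2
  have e1 : y ∩ lo S i = y1 := by
    ext a
    rw [mem_inter, hmy, mem_lo]
    constructor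
    · rintro ⟨h3 | h3 | h3, h4, h5⟩
      · exact h3
      · exact absurd h5 (lt_asymm (p2 _ h3).2.1)
      · exact absurd h5 (lt_asymm (hij.trans (p3 _ h3).2))
    · intro h3
      exact ⟨Or.inl h3, p1 _ h3⟩
  have e2 : y ∩ hi S i = y2 ∪ y3 := by
    ext a
    rw [mem_inter, hmy, mem_hi, mem_union]
    constructor
    · rintro ⟨h3 | h3 | h3, h4, h5⟩
      · exact absurd h5 (lt_asymm (p1 _ h3).2)
      · exact Or.inl h3
      · exact Or.inr h3
    · rintro (h3 | h3)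
      · exact ⟨Or.inr (Or.inl h3), (p2 _ h3).1, (p2 _ h3).2.1⟩
      · exact ⟨Or.inr (Or.inr h3), (p3 _ h3).1, hij.trans (p3 _ h3).2⟩
  have e3 : (insert j y) ∩ lo S i = y1 := by
    rw [insert_inter_of_notMem, e1]
    rw [mem_lo]
    exact fun h3 => lt_asymm hij h3.2
  have e4 : (insert j y) ∩ hi S i = insert j (y2 ∪ y3) := by
    rw [insert_inter_of_mem, e2]
    exact mem_hi.mpr ⟨hjS, hij⟩
  have e5 : y ∩ lo S j = y1 ∪ y2 := by
    ext a
    rw [mem_inter, hmy, mem_lo, mem_union]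
    constructor
    · rintro ⟨h3 | h3 | h3, h4, h5⟩
      · exact Or.inl h3
      · exact Or.inr h3
      · exact absurd h5 (lt_asymm (p3 _ h3).2)
    · rintro (h3 | h3)
      · exact ⟨Or.inl h3, (p1 _ h3).1, (p1 _ h3).2.trans hij⟩
      · exact ⟨Or.inr (Or.inl h3), (p2 _ h3).1, (p2 _ h3).2.2⟩
  have e6 : y ∩ hi S j = y3 := by
    ext a
    rw [mem_inter, hmy, mem_hi]
    constructor
    · rintro ⟨h3 | h3 | h3, h4, h5⟩
      · exact absurd h5 (lt_asymm ((p1 _ h3).2.trans hij))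
      · exact absurd h5 (lt_asymm (p2 _ h3).2.2)
      · exact h3
    · intro h3
      exact ⟨Or.inr (Or.inr h3), p3 _ h3⟩
  have e7 : (insert i y) ∩ lo S j = insert i (y1 ∪ y2) := by
    rw [insert_inter_of_mem, e5]
    exact mem_lo.mpr ⟨hiS, hij⟩
  have e8 : (insert i y) ∩ hi S j = y3 := by
    rw [insert_inter_of_notMem, e6]
    rw [mem_hi]
    exact fun h3 => lt_asymm hij h3.2
  have hj23 : j ∉ y2 ∪ y3 := by
    intro h3
    apply hjy
    rw [hmy]
    rcases mem_union.mp h3 with h4 | h4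
    · exact Or.inr (Or.inl h4)
    · exact Or.inr (Or.inr h4)
  have hi12 : i ∉ y1 ∪ y2 := by
    intro h3
    apply hiy
    rw [hmy]
    rcases mem_union.mp h3 with h4 | h4
    · exact Or.inl h4
    · exact Or.inr (Or.inl h4)
  have c1 : ((y1.card : ℕ) : ZMod Q) = s := by rw [hc1, ZMod.natCast_zmod_val]
  have c2 : ((y2.card : ℕ) : ZMod Q) = T - s - v := by rw [hc2, ZMod.natCast_zmod_val]
  have c3 : ((y3.card : ℕ) : ZMod Q) = v := by rw [hc3, ZMod.natCast_zmod_val]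
  have c23 : (((y2 ∪ y3).card : ℕ) : ZMod Q) = T - s := by
    rw [card_union_of_disjoint hd23]; push_cast; rw [c2, c3]; ring
  have c12 : (((y1 ∪ y2).card : ℕ) : ZMod Q) = T - v := by
    rw [card_union_of_disjoint hd12]; push_cast; rw [c1, c2]; ring
  refine hfree i hiS j hjS hij.ne y hiy hjy ⟨?_, ?_, ?_, ?_⟩
  · rw [hF i hiS, e1, e2, c1, c23]; exact hs1
  · rw [hF i hiS, e3, e4, card_insert_of_notMem hj23, c1]
    push_cast
    rw [c23]; exact hs2
  · rw [hF j hjS, e5, e6, c12, c3]; exact hv1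
  · rw [hF j hjS, e7, e8, card_insert_of_notMem hi12, c3]
    push_cast
    rw [c12]; exact hv2

end

section

variable {ι : Type} [Fintype ι] [DecidableEq ι] {Q : ℕ} [NeZero Q]

omit [NeZero Q] in
theorem sum_card_eq (L : Finset ι) (t : ZMod Q) :
    ∑ y : Finset ι, ind (((y ∩ L).card : ZMod Q) = t) = 2 ^ Fintype.card ι * uu Q L.card t := by
  rw [sum_inter L (fun w => ind ((w.card : ZMod Q) = t)), sum_powerset_card, ← mul_assoc, ← pow_add,
    Nat.sub_add_cancel (card_le_univ L)]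

omit [NeZero Q] in
theorem sum_card_two (L G : Finset ι) (h : Disjoint L G) (s t : ZMod Q) :
    ∑ y : Finset ι, ind (((y ∩ L).card : ZMod Q) = s) * ind (((y ∩ G).card : ZMod Q) = t) =
      2 ^ Fintype.card ι * (uu Q L.card s * uu Q G.card t) := by
  have h1 := sum_mul L (fun x => ind ((x.card : ZMod Q) = s))
    (fun x => ind (((x ∩ G).card : ZMod Q) = t))
  have h2 : ∀ y : Finset ι, (y \ L) ∩ G = y ∩ G := by
    intro y
    ext a
    simp only [mem_inter, mem_sdiff]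
    constructor
    · rintro ⟨⟨h3, _⟩, h4⟩; exact ⟨h3, h4⟩
    · rintro ⟨h3, h4⟩; exact ⟨⟨h3, fun h5 => (disjoint_left.mp h h5) h4⟩, h4⟩
  simp only [h2] at h1
  rw [sum_card_eq, sum_card_eq] at h1
  have hN : (2 ^ Fintype.card ι : ℝ) ≠ 0 := by positivity
  apply mul_left_cancel₀ hN
  rw [h1]
  ring

theorem sum_psi (L G : Finset ι) (h : Disjoint L G) (Ψ : ZMod Q → ZMod Q → Prop) :
    ∑ y : Finset ι, ind (Ψ ((y ∩ L).card : ℕ) ((y ∩ G).card : ℕ)) =
      2 ^ Fintype.card ι * ∑ s : ZMod Q, ∑ t : ZMod Q, uu Q L.card s * uu Q G.card t * ind (Ψ s t) := by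
  have h1 : ∀ y : Finset ι, ind (Ψ ((y ∩ L).card : ℕ) ((y ∩ G).card : ℕ)) =
      ∑ s : ZMod Q, ∑ t : ZMod Q,
        ind (((y ∩ L).card : ZMod Q) = s) * ind (((y ∩ G).card : ZMod Q) = t) * ind (Ψ s t) := by
    intro y
    rw [sum_eq_single ((y ∩ L).card : ZMod Q)]
    · rw [sum_eq_single ((y ∩ G).card : ZMod Q)]
      · rw [ind_true rfl, ind_true rfl]; ring
      · intro b _ hb
        rw [ind_false (p := ((y ∩ G).card : ZMod Q) = b) (fun h3 => hb h3.symm)]; ring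
      · intro h3; exact absurd (mem_univ _) h3
    · intro b _ hb
      refine sum_eq_zero fun t _ => ?_
      rw [ind_false (p := ((y ∩ L).card : ZMod Q) = b) (fun h3 => hb h3.symm)]; ring
    · intro h3; exact absurd (mem_univ _) h3
  simp only [h1]
  rw [sum_comm, mul_sum]
  refine sum_congr rfl fun s _ => ?_
  rw [sum_comm, mul_sum]
  refine sum_congr rfl fun t _ => ?_
  rw [← mul_assoc, ← sum_card_two L G h s t, Finset.sum_mul]

end

end Pool.Agent.H.MP_4093f8_co.Poly
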